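import Mathlib

/-!
# Definitions for the static solutions of the wave equation on a square
-/

set_option autoImplicit false

namespace Pool.Agent.H262.QS

open MeasureTheory

/-- the coefficients `(-1) ^ m sin((m + 1) δ) ^ 3 / (m + 1) ^ 2` -/
noncomputable def rc (δ : ℝ) (m : ℕ) : ℝ :=
  (-1) ^ m * Real.sin (((m : ℝ) + 1) * δ) ^ 3 / ((m : ℝ) + 1) ^ 2

/-- the frequencies `√((m + 1) ^ 2 + (n + 1) ^ 2)` -/
noncomputable def om (m n : ℕ) : ℝ := Real.sqrt (((m : ℝ) + 1) ^ 2 + ((n : ℝ) + 1) ^ 2)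

/-- the kernel of the wave equation in the plane -/
noncomputable def ker (s : ℝ) (z : ℝ × ℝ) : ℝ :=
  if z.1 ^ 2 + z.2 ^ 2 < s ^ 2 then 1 / Real.sqrt (s ^ 2 - (z.1 ^ 2 + z.2 ^ 2)) else 0

/-- the coefficients of the harmonic function `∑ cc_m sin((m + 1) x) sinh((m + 1) y)` -/
noncomputable def cc (δ : ℝ) (m : ℕ) : ℝ :=
  (-1) ^ m * Real.sin (((m : ℝ) + 1) * δ) ^ 3 * Real.sinh (((m : ℝ) + 1) * δ) ^ 3 /
    (((m : ℝ) + 1) ^ 5 * Real.sinh (((m : ℝ) + 1) * Real.pi))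

/-- the harmonic function `∑ cc_m sin((m + 1) x) sinh((m + 1) y)` -/
noncomputable def hh (δ x y : ℝ) : ℝ :=
  ∑' m : ℕ, cc δ m * Real.sin (((m : ℝ) + 1) * x) * Real.sinh (((m : ℝ) + 1) * y)

end Pool.Agent.H262.QS
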