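import Pool.Agent.H262.QS.Defs

set_option autoImplicit false

namespace Pool.Agent.H262.QS

open MeasureTheory Complex Filter

theorem T1_exp (n : ℤ) : cexp (Complex.I * n * Real.pi) = (-1) ^ n := by
  rw [show Complex.I * n * Real.pi = n * (Real.pi * Complex.I) by ring, Complex.exp_int_mul,
    Complex.exp_pi_mul_I]

theorem T1_exp' (n : ℤ) : cexp (-(Complex.I * n * Real.pi)) = (-1) ^ n := by
  rw [Complex.exp_neg, T1_exp]
  rcases Int.even_or_odd n with h | h
  · rw [h.neg_one_zpow]; norm_num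
  · rw [h.neg_one_zpow]; norm_num

/-- the integral -/
theorem T1_int (a : ℝ) (ha : 0 < a) (n : ℤ) :
    ∫ x in (-Real.pi)..Real.pi, cexp (-(Complex.I * n * x)) * ((Real.cosh (a * x) : ℝ) : ℂ) =
      (-1 : ℂ) ^ n * (2 * a * Real.sinh (a * Real.pi) / (a ^ 2 + n ^ 2)) := by
  have h1 : (a : ℂ) - Complex.I * n ≠ 0 := by
    intro h
    have := congrArg Complex.re h
    simp at this
    linarith
  have h2 : -(a : ℂ) - Complex.I * n ≠ 0 := by
    intro h
    have := congrArg Complex.re h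
    simp at this
    linarith
  have h3 : ∀ x : ℝ, cexp (-(Complex.I * n * x)) * ((Real.cosh (a * x) : ℝ) : ℂ) =
      (cexp (((a : ℂ) - Complex.I * n) * x) + cexp ((-(a : ℂ) - Complex.I * n) * x)) / 2 := by
    intro x
    rw [Complex.ofReal_cosh, Complex.cosh, mul_div_assoc', mul_add, ← Complex.exp_add,
      ← Complex.exp_add]
    congr 3
    · push_cast
      ring
    · push_cast
      ring
  simp_rw [h3]
  rw [intervalIntegral.integral_div, intervalIntegral.integral_add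
    (by apply Continuous.intervalIntegrable; fun_prop)
    (by apply Continuous.intervalIntegrable; fun_prop),
    integral_exp_mul_complex h1, integral_exp_mul_complex h2]
  have e1 : cexp (((a : ℂ) - Complex.I * n) * Real.pi) = cexp (a * Real.pi) * (-1) ^ n := by
    rw [← T1_exp' n, ← Complex.exp_add]
    congr 1
    ring
  have e2 : cexp (((a : ℂ) - Complex.I * n) * ((-Real.pi : ℝ) : ℂ)) =
      cexp (-(a * Real.pi)) * (-1) ^ n := by
    rw [← T1_exp n, ← Complex.exp_add]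
    congr 1
    push_cast
    ring
  have e3 : cexp ((-(a : ℂ) - Complex.I * n) * Real.pi) = cexp (-(a * Real.pi)) * (-1) ^ n := by
    rw [← T1_exp' n, ← Complex.exp_add]
    congr 1
    ring
  have e4 : cexp ((-(a : ℂ) - Complex.I * n) * ((-Real.pi : ℝ) : ℂ)) =
      cexp (a * Real.pi) * (-1) ^ n := by
    rw [← T1_exp n, ← Complex.exp_add]
    congr 1
    push_cast
    ring
  rw [e1, e2, e3, e4, Complex.ofReal_sinh, Complex.sinh]
  have h4 : (a : ℂ) ^ 2 + (n : ℂ) ^ 2 = -(((a : ℂ) - Complex.I * n) * (-(a : ℂ) - Complex.I * n)) := by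
    linear_combination ((n : ℂ) ^ 2) * Complex.I_sq
  have h5 : ((a * Real.pi : ℝ) : ℂ) = (a : ℂ) * (Real.pi : ℂ) := by push_cast; rfl
  rw [h4, h5]
  field_simp
  ring

theorem T1_summable (a : ℝ) :
    Summable (fun n : ℤ => (-1 : ℂ) ^ n * (a * Real.sinh (a * Real.pi) /
      (Real.pi * (a ^ 2 + n ^ 2)))) := by
  have hs : Summable (fun n : ℤ => |a * Real.sinh (a * Real.pi) / Real.pi| * (1 / (n : ℝ) ^ 2)) :=
    (Real.summable_one_div_int_pow.2 (by norm_num)).mul_left _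
  refine hs.of_norm_bounded_eventually ?_
  have h0 : ∀ᶠ n : ℤ in cofinite, n ≠ 0 := by
    rw [eventually_cofinite]
    simp
  filter_upwards [h0] with n hn
  have hn' : (n : ℝ) ≠ 0 := by exact_mod_cast hn
  have h1 : (-1 : ℂ) ^ n * (a * Real.sinh (a * Real.pi) / (Real.pi * (a ^ 2 + n ^ 2))) =
      (-1 : ℂ) ^ n * ((a * Real.sinh (a * Real.pi) / Real.pi * (1 / (a ^ 2 + (n : ℝ) ^ 2)) : ℝ) : ℂ) := by
    push_cast
    field_simp
  rw [h1, norm_mul, norm_zpow, norm_neg, norm_one, one_zpow, one_mul, Complex.norm_real,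
    Real.norm_eq_abs, abs_mul]
  have h2 : 0 < (n : ℝ) ^ 2 := by positivity
  refine mul_le_mul_of_nonneg_left ?_ (abs_nonneg _)
  rw [abs_of_nonneg (by positivity)]
  exact one_div_le_one_div_of_le h2 (by nlinarith [sq_nonneg a])

theorem T1_main (a : ℝ) (ha : 0 < a) (θ : ℝ) (h1 : -Real.pi ≤ θ) (h2 : θ < Real.pi) :
    HasSum (fun n : ℤ => (-1 : ℂ) ^ n * (a * Real.sinh (a * Real.pi) /
      (Real.pi * (a ^ 2 + n ^ 2))) * cexp (Complex.I * n * θ)) ((Real.cosh (a * θ) : ℝ) : ℂ) := by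
  have : Fact ((0 : ℝ) < 2 * Real.pi) := ⟨Real.two_pi_pos⟩
  have hpi := Real.pi_pos
  have hpic : (Real.pi : ℂ) ≠ 0 := by exact_mod_cast hpi.ne'
  let g : ℝ → ℂ := fun x => ((Real.cosh (a * x) : ℝ) : ℂ)
  have hg : Continuous g := by
    have : Continuous fun x : ℝ => Real.cosh (a * x) := by fun_prop
    exact Complex.continuous_ofReal.comp this
  have hgp : g (-Real.pi) = g (-Real.pi + 2 * Real.pi) := by
    have h : -Real.pi + 2 * Real.pi = Real.pi := by ring
    rw [h]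
    simp only [g]
    rw [mul_neg, Real.cosh_neg]
  let F : C(AddCircle (2 * Real.pi), ℂ) :=
    ⟨AddCircle.liftIco (2 * Real.pi) (-Real.pi) g, AddCircle.liftIco_continuous hgp hg.continuousOn⟩
  have hco : ∀ n : ℤ, fourierCoeff F n = (-1 : ℂ) ^ n * (a * Real.sinh (a * Real.pi) /
      (Real.pi * (a ^ 2 + n ^ 2))) := by
    intro n
    have e1 : fourierCoeff F n = fourierCoeff (AddCircle.liftIco (2 * Real.pi) (-Real.pi) g) n := rfl
    rw [e1, fourierCoeff_liftIco_eq, fourierCoeffOn_eq_integral]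
    have e2 : -Real.pi + 2 * Real.pi = Real.pi := by ring
    have e3 : Real.pi - -Real.pi = 2 * Real.pi := by ring
    have e4 : (∫ x in (-Real.pi)..(-Real.pi + 2 * Real.pi),
        (fourier (-n) (x : AddCircle (-Real.pi + 2 * Real.pi - -Real.pi)) : ℂ) • g x) =
        ∫ x in (-Real.pi)..Real.pi, cexp (-(Complex.I * n * x)) * ((Real.cosh (a * x) : ℝ) : ℂ) := by
      rw [e2]
      refine intervalIntegral.integral_congr fun x _ => ?_
      simp only [g, smul_eq_mul]
      rw [fourier_coe_apply]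
      congr 2
      push_cast
      field_simp
      ring
    rw [e4, T1_int a ha n, e2, e3, Complex.real_smul]
    have h5 : (a : ℂ) ^ 2 + (n : ℂ) ^ 2 ≠ 0 := by
      have : (a : ℝ) ^ 2 + (n : ℝ) ^ 2 ≠ 0 := by positivity
      exact_mod_cast this
    push_cast
    field_simp
  have hsum : Summable (fourierCoeff F) := by
    rw [show (fourierCoeff F) = fun n : ℤ => (-1 : ℂ) ^ n * (a * Real.sinh (a * Real.pi) /
      (Real.pi * (a ^ 2 + n ^ 2))) from funext hco]
    exact T1_summable a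
  have h3 := has_pointwise_sum_fourier_series_of_summable hsum (θ : AddCircle (2 * Real.pi))
  have h4 : F (θ : AddCircle (2 * Real.pi)) = ((Real.cosh (a * θ) : ℝ) : ℂ) := by
    have : F (θ : AddCircle (2 * Real.pi)) =
      AddCircle.liftIco (2 * Real.pi) (-Real.pi) g (θ : AddCircle (2 * Real.pi)) := rfl
    rw [this, AddCircle.liftIco_coe_apply ⟨h1, by linarith⟩]
  rw [h4] at h3
  have h6 : (fun n : ℤ => (-1 : ℂ) ^ n * (a * Real.sinh (a * Real.pi) /
      (Real.pi * (a ^ 2 + n ^ 2))) * cexp (Complex.I * n * θ)) =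
      fun n : ℤ => fourierCoeff F n • (fourier n (θ : AddCircle (2 * Real.pi)) : ℂ) := by
    funext n
    rw [hco n, smul_eq_mul, fourier_coe_apply]
    congr 2
    push_cast
    field_simp
  rw [h6]
  exact h3

theorem T1_half (a : ℝ) (ha : 0 < a) (θ : ℝ) (h1 : -Real.pi ≤ θ) (h2 : θ < Real.pi) :
    HasSum (fun n : ℕ => (-1) ^ n * Real.cos (((n : ℝ) + 1) * θ) / (a ^ 2 + ((n : ℝ) + 1) ^ 2))
      (1 / (2 * a ^ 2) - Real.pi * Real.cosh (a * θ) / (2 * a * Real.sinh (a * Real.pi))) := by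
  have h3 := (T1_main a ha θ h1 h2).nat_add_neg
  have hpi := Real.pi_pos
  have hsh : 0 < Real.sinh (a * Real.pi) := Real.sinh_pos_iff.2 (by positivity)
  have h4 : HasSum (fun n : ℕ => (-1) ^ n * (a * Real.sinh (a * Real.pi) /
      (Real.pi * (a ^ 2 + (n : ℝ) ^ 2))) * (2 * Real.cos (n * θ)))
      (Real.cosh (a * θ) + Real.sinh (a * Real.pi) / (Real.pi * a)) := by
    rw [← Complex.hasSum_ofReal]
    have e1 : ((Real.cosh (a * θ) + Real.sinh (a * Real.pi) / (Real.pi * a) : ℝ) : ℂ) =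
        ((Real.cosh (a * θ) : ℝ) : ℂ) + (-1 : ℂ) ^ (0 : ℤ) * (a * Real.sinh (a * Real.pi) /
      (Real.pi * (a ^ 2 + ((0 : ℤ) : ℂ) ^ 2))) * cexp (Complex.I * ((0 : ℤ) : ℂ) * θ) := by
      have ha' : (a : ℂ) ≠ 0 := by exact_mod_cast ha.ne'
      have hpi' : (Real.pi : ℂ) ≠ 0 := by exact_mod_cast hpi.ne'
      simp only [zpow_zero, Int.cast_zero, mul_zero, zero_mul, Complex.exp_zero]
      push_cast
      field_simp
      ring
    rw [e1]
    have e4 : (fun n : ℕ => (((-1) ^ n * (a * Real.sinh (a * Real.pi) /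
        (Real.pi * (a ^ 2 + (n : ℝ) ^ 2))) * (2 * Real.cos (n * θ)) : ℝ) : ℂ)) =
        fun n : ℕ => (-1 : ℂ) ^ (n : ℤ) * (a * Real.sinh (a * Real.pi) /
          (Real.pi * (a ^ 2 + ((n : ℤ) : ℂ) ^ 2))) * cexp (Complex.I * ((n : ℤ) : ℂ) * θ) +
          (-1 : ℂ) ^ (-(n : ℤ)) * (a * Real.sinh (a * Real.pi) /
          (Real.pi * (a ^ 2 + ((-(n : ℤ) : ℤ) : ℂ) ^ 2))) *
            cexp (Complex.I * ((-(n : ℤ) : ℤ) : ℂ) * θ) := by
      funext n
      have e5 : (-1 : ℂ) ^ (-(n : ℤ)) = (-1) ^ n := by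
        rw [zpow_neg, zpow_natCast]
        rcases Nat.even_or_odd n with h | h
        · rw [h.neg_one_pow]; norm_num
        · rw [h.neg_one_pow]; norm_num
      have e6 : cexp (Complex.I * ((n : ℤ) : ℂ) * θ) + cexp (Complex.I * ((-(n : ℤ) : ℤ) : ℂ) * θ) =
          2 * Complex.cos (n * θ) := by
        rw [Complex.cos]
        push_cast
        rw [show Complex.I * (n : ℂ) * θ = n * θ * Complex.I by ring,
          show Complex.I * -(n : ℂ) * θ = -(n * θ) * Complex.I by ring]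
        ring
      rw [e5, zpow_natCast]
      have e7 : ((-(n : ℤ) : ℤ) : ℂ) ^ 2 = ((n : ℤ) : ℂ) ^ 2 := by push_cast; ring
      rw [e7, ← mul_add, e6]
      push_cast
      ring
    rw [e4]
    exact h3
  have h5 := (hasSum_nat_add_iff' 1).2 h4
  have h6 := h5.mul_left (-(Real.pi / (2 * a * Real.sinh (a * Real.pi))))
  have e2 : (fun n : ℕ => (-1) ^ n * Real.cos (((n : ℝ) + 1) * θ) / (a ^ 2 + ((n : ℝ) + 1) ^ 2)) =
      fun n : ℕ => -(Real.pi / (2 * a * Real.sinh (a * Real.pi))) *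
        ((-1) ^ (n + 1) * (a * Real.sinh (a * Real.pi) /
      (Real.pi * (a ^ 2 + ((n + 1 : ℕ) : ℝ) ^ 2))) * (2 * Real.cos ((n + 1 : ℕ) * θ))) := by
    funext n
    have h7 : a ^ 2 + ((n : ℝ) + 1) ^ 2 ≠ 0 := by positivity
    push_cast
    field_simp
    ring
  rw [e2]
  have e3 : 1 / (2 * a ^ 2) - Real.pi * Real.cosh (a * θ) / (2 * a * Real.sinh (a * Real.pi)) =
      -(Real.pi / (2 * a * Real.sinh (a * Real.pi))) *
      (Real.cosh (a * θ) + Real.sinh (a * Real.pi) / (Real.pi * a) -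
        ∑ i ∈ Finset.range 1, (-1) ^ i * (a * Real.sinh (a * Real.pi) /
      (Real.pi * (a ^ 2 + (i : ℝ) ^ 2))) * (2 * Real.cos (i * θ))) := by
    rw [Finset.sum_range_one]
    simp only [pow_zero, Nat.cast_zero, zero_mul, Real.cos_zero]
    field_simp
    ring
  rw [e3]
  exact h6

/-- `∑_{n ≥ 1} (-1) ^ (n + 1) cos(n θ) / (a ^ 2 + n ^ 2)` -/
theorem cosh_series (a : ℝ) (ha : 0 < a) (θ : ℝ) (hθ : |θ| ≤ Real.pi) :
    HasSum (fun n : ℕ => (-1) ^ n * Real.cos (((n : ℝ) + 1) * θ) / (a ^ 2 + ((n : ℝ) + 1) ^ 2))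
      (1 / (2 * a ^ 2) - Real.pi * Real.cosh (a * θ) / (2 * a * Real.sinh (a * Real.pi))) := by
  obtain ⟨h1, h2⟩ := abs_le.1 hθ
  rcases h2.lt_or_eq with h | h
  · exact T1_half a ha θ h1 h
  · have h3 := T1_half a ha (-θ) (by linarith) (by linarith [Real.pi_pos])
    simp only [mul_neg, Real.cos_neg, Real.cosh_neg] at h3
    exact h3

end Pool.Agent.H262.QS
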