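import Pool.Agent.H262.QS.Defs

set_option autoImplicit false

namespace Pool.Agent.H262.QS

open MeasureTheory

/-- the integral of a cosine over the whole interval -/
theorem T10_cos (l : ℝ) (hl : 0 < l) (k : ℤ) :
    ∫ x in (0 : ℝ)..(2 * l), Real.cos ((k : ℝ) * (Real.pi / (2 * l)) * x) =
      if k = 0 then 2 * l else 0 := by
  split_ifs with h
  · rw [h]
    simp
  · have hk : (k : ℝ) ≠ 0 := by exact_mod_cast h
    have hc : (k : ℝ) * (Real.pi / (2 * l)) ≠ 0 :=
      mul_ne_zero hk (div_ne_zero Real.pi_ne_zero (by positivity))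
    rw [intervalIntegral.integral_comp_mul_left (fun y => Real.cos y) hc, integral_cos,
      mul_zero, Real.sin_zero, sub_zero]
    have h1 : (k : ℝ) * (Real.pi / (2 * l)) * (2 * l) = (k : ℝ) * Real.pi := by
      field_simp
    rw [h1, Real.sin_int_mul_pi, smul_zero]

/-- orthogonality of the sines -/
theorem T10_orth (l : ℝ) (hl : 0 < l) (m n : ℕ) :
    ∫ x in Set.Ioo (0 : ℝ) (2 * l), Real.sin (((m : ℝ) + 1) * Real.pi * x / (2 * l)) *
      Real.sin (((n : ℝ) + 1) * Real.pi * x / (2 * l)) = if m = n then l else 0 := by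
  rw [← integral_Ioc_eq_integral_Ioo, ← intervalIntegral.integral_of_le (by positivity)]
  have h1 : ∀ x : ℝ, Real.sin (((m : ℝ) + 1) * Real.pi * x / (2 * l)) *
      Real.sin (((n : ℝ) + 1) * Real.pi * x / (2 * l)) =
      (1 / 2) * (Real.cos ((((m : ℤ) - n : ℤ) : ℝ) * (Real.pi / (2 * l)) * x) -
        Real.cos ((((m : ℤ) + n + 2 : ℤ) : ℝ) * (Real.pi / (2 * l)) * x)) := by
    intro x
    have h2 : (((m : ℤ) - n : ℤ) : ℝ) * (Real.pi / (2 * l)) * x =
        ((m : ℝ) + 1) * Real.pi * x / (2 * l) - ((n : ℝ) + 1) * Real.pi * x / (2 * l) := by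
      push_cast
      ring
    have h3 : (((m : ℤ) + n + 2 : ℤ) : ℝ) * (Real.pi / (2 * l)) * x =
        ((m : ℝ) + 1) * Real.pi * x / (2 * l) + ((n : ℝ) + 1) * Real.pi * x / (2 * l) := by
      push_cast
      ring
    rw [h2, h3, Real.cos_sub, Real.cos_add]
    ring
  simp only [h1]
  rw [intervalIntegral.integral_const_mul, intervalIntegral.integral_sub
    ((by fun_prop : Continuous fun x : ℝ =>
      Real.cos ((((m : ℤ) - n : ℤ) : ℝ) * (Real.pi / (2 * l)) * x)).intervalIntegrable _ _)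
    ((by fun_prop : Continuous fun x : ℝ =>
      Real.cos ((((m : ℤ) + n + 2 : ℤ) : ℝ) * (Real.pi / (2 * l)) * x)).intervalIntegrable _ _),
    T10_cos l hl, T10_cos l hl]
  have h4 : ((m : ℤ) + n + 2 : ℤ) ≠ 0 := by omega
  rw [if_neg h4]
  by_cases h : m = n
  · have h5 : ((m : ℤ) - n : ℤ) = 0 := by omega
    rw [if_pos h, if_pos h5]
    ring
  · have h5 : ((m : ℤ) - n : ℤ) ≠ 0 := by omega
    rw [if_neg h, if_neg h5]
    ring

/-- the square has finite measure -/
theorem T10_fin (l : ℝ) : IsFiniteMeasure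
    ((volume : Measure (ℝ × ℝ)).restrict (Set.Ioo (0 : ℝ) (2 * l) ×ˢ Set.Ioo (0 : ℝ) (2 * l))) := by
  refine ⟨?_⟩
  rw [Measure.restrict_apply_univ, Measure.volume_eq_prod, Measure.prod_prod, Real.volume_Ioo]
  exact ENNReal.mul_lt_top ENNReal.ofReal_lt_top ENNReal.ofReal_lt_top

theorem T10_bound (b x y : ℝ) : ‖b * (Real.sin x * Real.sin y)‖ ≤ |b| := by
  rw [Real.norm_eq_abs, abs_mul, abs_mul]
  have h1 := Real.abs_sin_le_one x
  have h2 := Real.abs_sin_le_one y
  have h3 : |Real.sin x| * |Real.sin y| ≤ 1 := mul_le_one₀ h1 (abs_nonneg _) h2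
  exact mul_le_of_le_one_right (abs_nonneg _) h3

/-- An absolutely convergent double sine series: it is square integrable on the square, and its
coefficients are given by integrals. -/
theorem coeff (l : ℝ) (hl : 0 < l) (B : ℕ × ℕ → ℝ) (hB : Summable fun p => |B p|) :
    MemLp (fun x : ℝ × ℝ => ∑' p : ℕ × ℕ, B p *
        (Real.sin (((p.1 : ℝ) + 1) * Real.pi * x.1 / (2 * l)) *
          Real.sin (((p.2 : ℝ) + 1) * Real.pi * x.2 / (2 * l)))) 2
      (volume.restrict (Set.Ioo (0 : ℝ) (2 * l) ×ˢ Set.Ioo (0 : ℝ) (2 * l))) ∧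
    ∀ m n : ℕ,
      ∫ x in Set.Ioo (0 : ℝ) (2 * l) ×ˢ Set.Ioo (0 : ℝ) (2 * l),
          (∑' p : ℕ × ℕ, B p *
            (Real.sin (((p.1 : ℝ) + 1) * Real.pi * x.1 / (2 * l)) *
              Real.sin (((p.2 : ℝ) + 1) * Real.pi * x.2 / (2 * l))))
            * Real.sin (((m : ℝ) + 1) * Real.pi * x.1 / (2 * l))
            * Real.sin (((n : ℝ) + 1) * Real.pi * x.2 / (2 * l)) = l ^ 2 * B (m, n) := by
  have := T10_fin l
  have hcont : ∀ p : ℕ × ℕ, Continuous fun x : ℝ × ℝ => B p *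
      (Real.sin (((p.1 : ℝ) + 1) * Real.pi * x.1 / (2 * l)) *
        Real.sin (((p.2 : ℝ) + 1) * Real.pi * x.2 / (2 * l))) := fun p => by fun_prop
  refine ⟨?_, fun m n => ?_⟩
  · refine MemLp.of_bound (C := ∑' p, |B p|) ?_ (Filter.Eventually.of_forall fun x => ?_)
    · exact (continuous_tsum hcont hB fun p x => T10_bound _ _ _).aestronglyMeasurable
    · exact tsum_of_norm_bounded hB.hasSum fun p => T10_bound _ _ _
  · set G : ℕ × ℕ → ℝ × ℝ → ℝ := fun p x => B p *
      (Real.sin (((p.1 : ℝ) + 1) * Real.pi * x.1 / (2 * l)) *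
        Real.sin (((p.2 : ℝ) + 1) * Real.pi * x.2 / (2 * l))) *
        Real.sin (((m : ℝ) + 1) * Real.pi * x.1 / (2 * l)) *
        Real.sin (((n : ℝ) + 1) * Real.pi * x.2 / (2 * l)) with hG
    have hGc : ∀ p, Continuous (G p) := fun p => by
      simp only [hG]
      fun_prop
    have hGb : ∀ p x, ‖G p x‖ ≤ |B p| := by
      intro p x
      simp only [hG]
      rw [norm_mul, norm_mul]
      have h1 := T10_bound (B p) (((p.1 : ℝ) + 1) * Real.pi * x.1 / (2 * l))
        (((p.2 : ℝ) + 1) * Real.pi * x.2 / (2 * l))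
      have h2 : ‖Real.sin (((m : ℝ) + 1) * Real.pi * x.1 / (2 * l))‖ ≤ 1 := Real.abs_sin_le_one _
      have h3 : ‖Real.sin (((n : ℝ) + 1) * Real.pi * x.2 / (2 * l))‖ ≤ 1 := Real.abs_sin_le_one _
      calc _ ≤ |B p| * 1 * 1 := by
            refine mul_le_mul (mul_le_mul h1 h2 (norm_nonneg _) (abs_nonneg _)) h3
              (norm_nonneg _) (by positivity)
        _ = |B p| := by ring
    have hGi : ∀ p, Integrable (G p)
        ((volume : Measure (ℝ × ℝ)).restrict
          (Set.Ioo (0 : ℝ) (2 * l) ×ˢ Set.Ioo (0 : ℝ) (2 * l))) := fun p =>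
      Integrable.of_bound (hGc p).aestronglyMeasurable |B p|
        (Filter.Eventually.of_forall fun x => hGb p x)
    have hsum : Summable fun p => ∫ x in Set.Ioo (0 : ℝ) (2 * l) ×ˢ Set.Ioo (0 : ℝ) (2 * l),
        ‖G p x‖ := by
      refine Summable.of_nonneg_of_le (fun p => integral_nonneg fun x => norm_nonneg _)
        (fun p => ?_) (hB.mul_right (((volume : Measure (ℝ × ℝ)).restrict
          (Set.Ioo (0 : ℝ) (2 * l) ×ˢ Set.Ioo (0 : ℝ) (2 * l))).real Set.univ))
      have h1 := integral_mono (hGi p).norm (integrable_const |B p|) fun x => hGb p x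
      rw [integral_const, smul_eq_mul] at h1
      exact h1.trans (le_of_eq (mul_comm _ _))
    have h1 := hasSum_integral_of_summable_integral_norm hGi hsum
    have h2 : ∀ x : ℝ × ℝ, (∑' p : ℕ × ℕ, B p *
            (Real.sin (((p.1 : ℝ) + 1) * Real.pi * x.1 / (2 * l)) *
              Real.sin (((p.2 : ℝ) + 1) * Real.pi * x.2 / (2 * l))))
            * Real.sin (((m : ℝ) + 1) * Real.pi * x.1 / (2 * l))
            * Real.sin (((n : ℝ) + 1) * Real.pi * x.2 / (2 * l)) = ∑' p, G p x := by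
      intro x
      rw [← tsum_mul_right, ← tsum_mul_right]
    simp only [h2]
    rw [← h1.tsum_eq]
    have h3 : ∀ p : ℕ × ℕ, ∫ x in Set.Ioo (0 : ℝ) (2 * l) ×ˢ Set.Ioo (0 : ℝ) (2 * l), G p x =
        B p * ((if p.1 = m then l else 0) * (if p.2 = n then l else 0)) := by
      intro p
      rw [← T10_orth l hl p.1 m, ← T10_orth l hl p.2 n, Measure.volume_eq_prod,
        ← setIntegral_prod_mul, ← integral_const_mul]
      refine integral_congr_ae (Filter.Eventually.of_forall fun x => ?_)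
      simp only [hG]
      ring
    simp only [h3]
    rw [tsum_eq_single (m, n)]
    · simp only [if_true]
      ring
    · intro p hp
      by_cases h4 : p.1 = m
      · have h5 : p.2 ≠ n := fun h => hp (Prod.ext h4 h)
        rw [if_neg h5, mul_zero, mul_zero]
      · rw [if_neg h4, zero_mul, mul_zero]

end Pool.Agent.H262.QS
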