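import Pool.Agent.H262.QS.Defs

set_option autoImplicit false

namespace Pool.Agent.H262.QS

/-- `|cos w| ≤ exp |Im w|` -/
theorem T7_norm_cos (w : ℂ) : ‖Complex.cos w‖ ≤ Real.exp |w.im| := by
  have h1 : Complex.cos w =
      (Complex.exp (w * Complex.I) + Complex.exp (-w * Complex.I)) / 2 := by
    rw [Complex.cos]
  rw [h1, norm_div]
  have h2 : ‖Complex.exp (w * Complex.I)‖ ≤ Real.exp |w.im| := by
    rw [Complex.norm_exp, Real.exp_le_exp, Complex.mul_I_re]
    exact neg_le_abs _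
  have h3 : ‖Complex.exp (-w * Complex.I)‖ ≤ Real.exp |w.im| := by
    rw [Complex.norm_exp, Real.exp_le_exp, Complex.mul_I_re, Complex.neg_im, neg_neg]
    exact le_abs_self _
  have h4 := norm_add_le (Complex.exp (w * Complex.I)) (Complex.exp (-w * Complex.I))
  have h5 : ‖(2 : ℂ)‖ = 2 := by norm_num
  rw [h5, div_le_iff₀ (by norm_num)]
  linarith

/-- the terms of the series are bounded in the strip `|Im z| ≤ 2` -/
theorem T7_bound (c : ℕ → ℝ) (m : ℕ) (z : ℂ) (hz : |z.im| ≤ 2) :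
    ‖(c m : ℂ) * Complex.cos (((m : ℂ) + 1) * z)‖ ≤ |c m| * Real.exp (2 * ((m : ℝ) + 1)) := by
  rw [norm_mul, Complex.norm_real, Real.norm_eq_abs]
  refine mul_le_mul_of_nonneg_left ?_ (abs_nonneg _)
  refine (T7_norm_cos _).trans ?_
  rw [Real.exp_le_exp]
  have h1 : (((m : ℂ) + 1) * z).im = ((m : ℝ) + 1) * z.im := by
    simp [Complex.mul_im]
  have h2 : (0 : ℝ) < (m : ℝ) + 1 := by positivity
  rw [h1, abs_mul, abs_of_pos h2]
  nlinarith

/-- the imaginary part of a term -/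
theorem T7_im (c : ℕ → ℝ) (m : ℕ) (z : ℂ) :
    ((c m : ℂ) * Complex.cos (((m : ℂ) + 1) * z)).im =
      -(c m * Real.sin (((m : ℝ) + 1) * z.re) * Real.sinh (((m : ℝ) + 1) * z.im)) := by
  have h1 : (((m : ℂ) + 1) * z).re = ((m : ℝ) + 1) * z.re := by
    simp [Complex.mul_re]
  have h2 : (((m : ℂ) + 1) * z).im = ((m : ℝ) + 1) * z.im := by
    simp [Complex.mul_im]
  rw [Complex.cos_eq, h1, h2, ← Complex.ofReal_cos, ← Complex.ofReal_sin, ← Complex.ofReal_cosh,
    ← Complex.ofReal_sinh, ← Complex.ofReal_mul, ← Complex.ofReal_mul]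
  rw [Complex.im_ofReal_mul, Complex.sub_im, Complex.ofReal_im, Complex.mul_I_im, Complex.ofReal_re]
  ring

/-- the imaginary part of the series -/
theorem T7_im_tsum (c : ℕ → ℝ)
    (hc : Summable fun m : ℕ => |c m| * Real.exp (2 * ((m : ℝ) + 1))) (z : ℂ) (hz : |z.im| ≤ 2) :
    (∑' m : ℕ, (c m : ℂ) * Complex.cos (((m : ℂ) + 1) * z)).im =
      -∑' m : ℕ, c m * Real.sin (((m : ℝ) + 1) * z.re) * Real.sinh (((m : ℝ) + 1) * z.im) := by
  have hs : Summable fun m : ℕ => (c m : ℂ) * Complex.cos (((m : ℂ) + 1) * z) :=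
    Summable.of_norm_bounded hc fun m => T7_bound c m z hz
  rw [Complex.im_tsum hs, ← tsum_neg]
  exact tsum_congr fun m => T7_im c m z

/-- The maximum principle for a harmonic function `∑ c_m sin((m + 1) x) sinh((m + 1) y)` on the square
`(0, π / 2) ^ 2`: if it is nonnegative on the sides `x = π / 2` and `y = π / 2`, it is nonnegative. -/
theorem max_principle (c : ℕ → ℝ)
    (hc : Summable fun m : ℕ => |c m| * Real.exp (2 * ((m : ℝ) + 1)))
    (h1 : ∀ y : ℝ, 0 ≤ y → y ≤ Real.pi / 2 →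
      0 ≤ ∑' m : ℕ, c m * Real.sin (((m : ℝ) + 1) * (Real.pi / 2)) * Real.sinh (((m : ℝ) + 1) * y))
    (h2 : ∀ x : ℝ, 0 ≤ x → x ≤ Real.pi / 2 →
      0 ≤ ∑' m : ℕ, c m * Real.sin (((m : ℝ) + 1) * x) * Real.sinh (((m : ℝ) + 1) * (Real.pi / 2)))
    (x y : ℝ) (hx : 0 ≤ x) (hx' : x ≤ Real.pi / 2) (hy : 0 ≤ y) (hy' : y ≤ Real.pi / 2) :
    0 ≤ ∑' m : ℕ, c m * Real.sin (((m : ℝ) + 1) * x) * Real.sinh (((m : ℝ) + 1) * y) := by
  have hpi : Real.pi / 2 < 2 := by linarith [Real.pi_lt_four]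
  have hpi0 : 0 < Real.pi / 2 := by linarith [Real.pi_pos]
  have hS : IsOpen {z : ℂ | |z.im| < 2} :=
    isOpen_lt (continuous_abs.comp Complex.continuous_im) continuous_const
  have hH : DifferentiableOn ℂ
      (fun z : ℂ => ∑' m : ℕ, (c m : ℂ) * Complex.cos (((m : ℂ) + 1) * z)) {z : ℂ | |z.im| < 2} := by
    refine Complex.differentiableOn_tsum_of_summable_norm hc (fun m => ?_) hS fun m w hw =>
      T7_bound c m w (le_of_lt hw)
    have h3 : Differentiable ℂ (fun z : ℂ => (c m : ℂ) * Complex.cos (((m : ℂ) + 1) * z)) :=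
      (Complex.differentiable_cos.comp (differentiable_id.const_mul ((m : ℂ) + 1))).const_mul _
    exact h3.differentiableOn
  set f : ℂ → ℂ := fun z : ℂ =>
    Complex.exp (-Complex.I * ∑' m : ℕ, (c m : ℂ) * Complex.cos (((m : ℂ) + 1) * z)) with hf
  have hfn : ∀ z : ℂ, |z.im| ≤ 2 → ‖f z‖ = Real.exp
      (-∑' m : ℕ, c m * Real.sin (((m : ℝ) + 1) * z.re) * Real.sinh (((m : ℝ) + 1) * z.im)) := by
    intro z hz
    rw [hf]
    simp only
    rw [Complex.norm_exp, ← T7_im_tsum c hc z hz]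
    congr 1
    rw [neg_mul, Complex.neg_re, Complex.I_mul_re, neg_neg]
  have hfd : DifferentiableOn ℂ f {z : ℂ | |z.im| < 2} :=
    (hH.const_mul (-Complex.I)).cexp
  set U : Set ℂ := Set.Ioo 0 (Real.pi / 2) ×ℂ Set.Ioo 0 (Real.pi / 2) with hU
  have hUc : closure U = Set.Icc 0 (Real.pi / 2) ×ℂ Set.Icc 0 (Real.pi / 2) := by
    rw [hU, Complex.closure_reProdIm, closure_Ioo hpi0.ne]
  have hUb : Bornology.IsBounded U :=
    (Metric.isBounded_Ioo 0 (Real.pi / 2)).reProdIm (Metric.isBounded_Ioo 0 (Real.pi / 2))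
  have hd : DiffContOnCl ℂ f U := by
    apply DifferentiableOn.diffContOnCl
    refine hfd.mono fun z hz => ?_
    rw [hUc, Complex.mem_reProdIm] at hz
    show |z.im| < 2
    rw [abs_of_nonneg hz.2.1]
    exact lt_of_le_of_lt hz.2.2 hpi
  have hC : ∀ z ∈ frontier U, ‖f z‖ ≤ 1 := by
    intro z hz
    rw [hU, Complex.frontier_reProdIm, closure_Ioo hpi0.ne, frontier_Ioo hpi0] at hz
    have hz2 : |z.im| ≤ 2 := by
      rcases hz with hz | hz
      · rw [Complex.mem_reProdIm] at hz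
        rcases hz.2 with h3 | h3
        · rw [h3, abs_zero]; norm_num
        · rw [Set.mem_singleton_iff] at h3
          rw [h3, abs_of_pos hpi0]; exact hpi.le
      · rw [Complex.mem_reProdIm] at hz
        rw [abs_of_nonneg hz.2.1]
        exact hz.2.2.trans hpi.le
    rw [hfn z hz2, Real.exp_le_one_iff, neg_nonpos]
    rcases hz with hz | hz
    · rw [Complex.mem_reProdIm] at hz
      rcases hz.2 with h3 | h3
      · rw [h3]
        simp
      · rw [Set.mem_singleton_iff] at h3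
        rw [h3]
        exact h2 z.re hz.1.1 hz.1.2
    · rw [Complex.mem_reProdIm] at hz
      rcases hz.1 with h3 | h3
      · rw [h3]
        simp
      · rw [Set.mem_singleton_iff] at h3
        rw [h3]
        exact h1 z.im hz.2.1 hz.2.2
  have hzz : (⟨x, y⟩ : ℂ) ∈ closure U := by
    rw [hUc, Complex.mem_reProdIm]
    exact ⟨⟨hx, hx'⟩, ⟨hy, hy'⟩⟩
  have h5 := Complex.norm_le_of_forall_mem_frontier_norm_le hUb hd hC hzz
  rw [hfn ⟨x, y⟩ (by show |y| ≤ 2; rw [abs_of_nonneg hy]; exact hy'.trans hpi.le),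
    Real.exp_le_one_iff, neg_nonpos] at h5
  exact h5

end Pool.Agent.H262.QS
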