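import Pool.Agent.H262.QS.Defs

set_option autoImplicit false

namespace Pool.Agent.H262.QS

/-- the Bernoulli polynomial `B_2` -/
theorem T2_bern (x : ℝ) :
    Polynomial.eval x (Polynomial.map (algebraMap ℚ ℝ) (Polynomial.bernoulli (2 * 1))) =
      x ^ 2 - x + 1 / 6 := by
  rw [Polynomial.bernoulli_def]
  simp only [Finset.sum_range_succ, Finset.sum_range_zero, Polynomial.map_add,
    Polynomial.map_monomial, Polynomial.eval_add, Polynomial.eval_monomial, Polynomial.map_zero,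
    Polynomial.eval_zero]
  norm_num [bernoulli_two, bernoulli_one, bernoulli_zero, Nat.choose]
  ring

/-- `∑_{n ≥ 1} (-1) ^ (n + 1) cos(n θ) / n ^ 2` -/
theorem quad_series (θ : ℝ) (hθ : |θ| ≤ Real.pi) :
    HasSum (fun n : ℕ => (-1) ^ n * Real.cos (((n : ℝ) + 1) * θ) / ((n : ℝ) + 1) ^ 2)
      (Real.pi ^ 2 / 12 - θ ^ 2 / 4) := by
  have hpi := Real.pi_pos
  have hab := abs_le.1 hθ
  have hx : (θ + Real.pi) / (2 * Real.pi) ∈ Set.Icc (0 : ℝ) 1 := by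
    constructor
    · exact div_nonneg (by linarith) (by linarith)
    · rw [div_le_one (by linarith)]
      linarith
  have h := hasSum_one_div_nat_pow_mul_cos one_ne_zero hx
  rw [T2_bern] at h
  have h1 := ((hasSum_nat_add_iff' 1).2 h).neg
  have e1 : (fun n : ℕ => -(1 / ((n + 1 : ℕ) : ℝ) ^ (2 * 1) *
      Real.cos (2 * Real.pi * ((n + 1 : ℕ) : ℝ) * ((θ + Real.pi) / (2 * Real.pi))))) =
      fun n : ℕ => (-1) ^ n * Real.cos (((n : ℝ) + 1) * θ) / ((n : ℝ) + 1) ^ 2 := by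
    funext n
    have e2 : 2 * Real.pi * ((n + 1 : ℕ) : ℝ) * ((θ + Real.pi) / (2 * Real.pi)) =
        ((n : ℝ) + 1) * θ + ((n + 1 : ℕ) : ℝ) * Real.pi := by
      push_cast
      field_simp
    rw [e2, Real.cos_add_nat_mul_pi, pow_succ]
    push_cast
    ring
  have e3 : -((-1) ^ (1 + 1) * (2 * Real.pi) ^ (2 * 1) / 2 / (((2 * 1).factorial : ℕ) : ℝ) *
      (((θ + Real.pi) / (2 * Real.pi)) ^ 2 - (θ + Real.pi) / (2 * Real.pi) + 1 / 6) -
      ∑ i ∈ Finset.range 1, 1 / ((i : ℕ) : ℝ) ^ (2 * 1) *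
        Real.cos (2 * Real.pi * ((i : ℕ) : ℝ) * ((θ + Real.pi) / (2 * Real.pi)))) =
      Real.pi ^ 2 / 12 - θ ^ 2 / 4 := by
    rw [Finset.sum_range_one]
    have : ((2 * 1).factorial : ℕ) = 2 := rfl
    rw [this]
    push_cast
    have h0 : (1 : ℝ) / (0 : ℝ) ^ (2 * 1) = 0 := by norm_num
    rw [h0, zero_mul, sub_zero]
    field_simp
    ring
  rw [← e3, ← e1]
  exact h1

/-- the function with the coefficients `rc` vanishes far from `π` -/
theorem rc_series (δ x : ℝ) (hδ : 0 ≤ δ) (hx : |x| + 3 * δ ≤ Real.pi) :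
    HasSum (fun n : ℕ => rc δ n * Real.sin (((n : ℝ) + 1) * x)) 0 := by
  have hab := abs_le.1 (le_refl |x|)
  have h1 := quad_series (x - δ) (abs_le.2 ⟨by linarith, by linarith⟩)
  have h2 := quad_series (x + δ) (abs_le.2 ⟨by linarith, by linarith⟩)
  have h3 := quad_series (x - 3 * δ) (abs_le.2 ⟨by linarith, by linarith⟩)
  have h4 := quad_series (x + 3 * δ) (abs_le.2 ⟨by linarith, by linarith⟩)
  have h := ((h1.sub h2).mul_left (3 / 8)).sub ((h3.sub h4).mul_left (1 / 8))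
  have e1 : (fun n : ℕ => rc δ n * Real.sin (((n : ℝ) + 1) * x)) = fun n : ℕ =>
      3 / 8 * ((-1) ^ n * Real.cos (((n : ℝ) + 1) * (x - δ)) / ((n : ℝ) + 1) ^ 2 -
        (-1) ^ n * Real.cos (((n : ℝ) + 1) * (x + δ)) / ((n : ℝ) + 1) ^ 2) -
      1 / 8 * ((-1) ^ n * Real.cos (((n : ℝ) + 1) * (x - 3 * δ)) / ((n : ℝ) + 1) ^ 2 -
        (-1) ^ n * Real.cos (((n : ℝ) + 1) * (x + 3 * δ)) / ((n : ℝ) + 1) ^ 2) := by
    funext n
    unfold rc
    have a1 : ((n : ℝ) + 1) * (x - δ) = ((n : ℝ) + 1) * x - ((n : ℝ) + 1) * δ := by ring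
    have a2 : ((n : ℝ) + 1) * (x + δ) = ((n : ℝ) + 1) * x + ((n : ℝ) + 1) * δ := by ring
    have a3 : ((n : ℝ) + 1) * (x - 3 * δ) = ((n : ℝ) + 1) * x - 3 * (((n : ℝ) + 1) * δ) := by ring
    have a4 : ((n : ℝ) + 1) * (x + 3 * δ) = ((n : ℝ) + 1) * x + 3 * (((n : ℝ) + 1) * δ) := by ring
    rw [a1, a2, a3, a4, Real.cos_sub, Real.cos_add, Real.cos_sub, Real.cos_add,
      Real.sin_three_mul]
    ring
  have e2 : (0 : ℝ) = 3 / 8 * (Real.pi ^ 2 / 12 - (x - δ) ^ 2 / 4 -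
      (Real.pi ^ 2 / 12 - (x + δ) ^ 2 / 4)) - 1 / 8 * (Real.pi ^ 2 / 12 - (x - 3 * δ) ^ 2 / 4 -
      (Real.pi ^ 2 / 12 - (x + 3 * δ) ^ 2 / 4)) := by ring
  rw [e1, e2]
  exact h

end Pool.Agent.H262.QS
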