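import Pool.Agent.H262.QS.T1
import Pool.Agent.H262.QS.T2

set_option autoImplicit false

namespace Pool.Agent.H262.QS

theorem T8_trig (p q : ℝ) : Real.sin p ^ 3 * Real.sin q =
    3 / 8 * (Real.cos (q - p) - Real.cos (q + p)) -
      1 / 8 * (Real.cos (q - 3 * p) - Real.cos (q + 3 * p)) := by
  rw [Real.cos_sub, Real.cos_add, Real.cos_sub, Real.cos_add, Real.sin_three_mul]
  ring

theorem T8_hyp (p q : ℝ) :
    3 / 8 * (Real.cosh (q - p) - Real.cosh (q + p)) -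
      1 / 8 * (Real.cosh (q - 3 * p) - Real.cosh (q + 3 * p)) = Real.sinh p ^ 3 * Real.sinh q := by
  rw [Real.cosh_sub, Real.cosh_add, Real.cosh_sub, Real.cosh_add, Real.sinh_three_mul]
  ring

/-- The sum over the second index in closed form: write
`1 / (n ^ 2 (a ^ 2 + n ^ 2)) = (1 / n ^ 2 - 1 / (a ^ 2 + n ^ 2)) / a ^ 2`, use `rc_series`,
`sin ^ 3 (n δ) = (3 sin (n δ) - sin (3 n δ)) / 4`, product to sum formulas and `cosh_series`. -/
theorem inner_series (δ a y : ℝ) (hδ : 0 ≤ δ) (ha : 0 < a) (hy : |y| + 3 * δ ≤ Real.pi) :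
    HasSum (fun n : ℕ => rc δ n * Real.sin (((n : ℝ) + 1) * y) / (a ^ 2 + ((n : ℝ) + 1) ^ 2))
      (Real.pi / 2 * Real.sinh (a * δ) ^ 3 * Real.sinh (a * y) / (a ^ 3 * Real.sinh (a * Real.pi))) := by
  have h0 := abs_le.mp (by linarith : |y| ≤ Real.pi - 3 * δ)
  have k1 : |y - δ| ≤ Real.pi := abs_le.mpr ⟨by linarith, by linarith⟩
  have k2 : |y + δ| ≤ Real.pi := abs_le.mpr ⟨by linarith, by linarith⟩
  have k3 : |y - 3 * δ| ≤ Real.pi := abs_le.mpr ⟨by linarith, by linarith⟩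
  have k4 : |y + 3 * δ| ≤ Real.pi := abs_le.mpr ⟨by linarith, by linarith⟩
  have s1 := cosh_series a ha (y - δ) k1
  have s2 := cosh_series a ha (y + δ) k2
  have s3 := cosh_series a ha (y - 3 * δ) k3
  have s4 := cosh_series a ha (y + 3 * δ) k4
  have r := rc_series δ y hδ hy
  have S := (r.sub (((s1.sub s2).mul_left (3 / 8)).sub ((s3.sub s4).mul_left (1 / 8)))).mul_left
    (1 / a ^ 2)
  have hpi : 0 < a * Real.pi := mul_pos ha Real.pi_pos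
  have hsh : Real.sinh (a * Real.pi) ≠ 0 := (Real.sinh_pos_iff.mpr hpi).ne'
  have ha' : a ≠ 0 := ha.ne'
  have hval : 1 / a ^ 2 * (0 - (3 / 8 * (1 / (2 * a ^ 2) -
      Real.pi * Real.cosh (a * (y - δ)) / (2 * a * Real.sinh (a * Real.pi)) -
      (1 / (2 * a ^ 2) - Real.pi * Real.cosh (a * (y + δ)) / (2 * a * Real.sinh (a * Real.pi)))) -
      1 / 8 * (1 / (2 * a ^ 2) -
      Real.pi * Real.cosh (a * (y - 3 * δ)) / (2 * a * Real.sinh (a * Real.pi)) -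
      (1 / (2 * a ^ 2) -
      Real.pi * Real.cosh (a * (y + 3 * δ)) / (2 * a * Real.sinh (a * Real.pi)))))) =
      Real.pi / 2 * Real.sinh (a * δ) ^ 3 * Real.sinh (a * y) / (a ^ 3 * Real.sinh (a * Real.pi)) := by
    have e := T8_hyp (a * δ) (a * y)
    have e1 : a * (y - δ) = a * y - a * δ := by ring
    have e2 : a * (y + δ) = a * y + a * δ := by ring
    have e3 : a * (y - 3 * δ) = a * y - 3 * (a * δ) := by ring
    have e4 : a * (y + 3 * δ) = a * y + 3 * (a * δ) := by ring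
    rw [e1, e2, e3, e4]
    have e5 : Real.pi / 2 * Real.sinh (a * δ) ^ 3 * Real.sinh (a * y) =
        Real.pi / 2 * (Real.sinh (a * δ) ^ 3 * Real.sinh (a * y)) := by ring
    rw [e5, ← e]
    field_simp
    ring
  rw [hval] at S
  have hfun : (fun n : ℕ => rc δ n * Real.sin (((n : ℝ) + 1) * y) / (a ^ 2 + ((n : ℝ) + 1) ^ 2)) =
      fun n : ℕ => 1 / a ^ 2 * (rc δ n * Real.sin (((n : ℝ) + 1) * y) -
        (3 / 8 * ((-1) ^ n * Real.cos (((n : ℝ) + 1) * (y - δ)) / (a ^ 2 + ((n : ℝ) + 1) ^ 2) -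
          (-1) ^ n * Real.cos (((n : ℝ) + 1) * (y + δ)) / (a ^ 2 + ((n : ℝ) + 1) ^ 2)) -
        1 / 8 * ((-1) ^ n * Real.cos (((n : ℝ) + 1) * (y - 3 * δ)) / (a ^ 2 + ((n : ℝ) + 1) ^ 2) -
          (-1) ^ n * Real.cos (((n : ℝ) + 1) * (y + 3 * δ)) / (a ^ 2 + ((n : ℝ) + 1) ^ 2)))) := by
    funext n
    have hk : ((n : ℝ) + 1) ≠ 0 := by positivity
    have hk2 : a ^ 2 + ((n : ℝ) + 1) ^ 2 ≠ 0 := by positivity
    have e := T8_trig (((n : ℝ) + 1) * δ) (((n : ℝ) + 1) * y)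
    have e1 : ((n : ℝ) + 1) * (y - δ) = ((n : ℝ) + 1) * y - ((n : ℝ) + 1) * δ := by ring
    have e2 : ((n : ℝ) + 1) * (y + δ) = ((n : ℝ) + 1) * y + ((n : ℝ) + 1) * δ := by ring
    have e3 : ((n : ℝ) + 1) * (y - 3 * δ) = ((n : ℝ) + 1) * y - 3 * (((n : ℝ) + 1) * δ) := by ring
    have e4 : ((n : ℝ) + 1) * (y + 3 * δ) = ((n : ℝ) + 1) * y + 3 * (((n : ℝ) + 1) * δ) := by ring
    rw [e1, e2, e3, e4]
    have e6 : 3 / 8 * ((-1) ^ n * Real.cos (((n : ℝ) + 1) * y - ((n : ℝ) + 1) * δ) /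
          (a ^ 2 + ((n : ℝ) + 1) ^ 2) -
          (-1) ^ n * Real.cos (((n : ℝ) + 1) * y + ((n : ℝ) + 1) * δ) / (a ^ 2 + ((n : ℝ) + 1) ^ 2)) -
        1 / 8 * ((-1) ^ n * Real.cos (((n : ℝ) + 1) * y - 3 * (((n : ℝ) + 1) * δ)) /
          (a ^ 2 + ((n : ℝ) + 1) ^ 2) -
          (-1) ^ n * Real.cos (((n : ℝ) + 1) * y + 3 * (((n : ℝ) + 1) * δ)) /
          (a ^ 2 + ((n : ℝ) + 1) ^ 2)) =
        (-1) ^ n * (Real.sin (((n : ℝ) + 1) * δ) ^ 3 * Real.sin (((n : ℝ) + 1) * y)) /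
          (a ^ 2 + ((n : ℝ) + 1) ^ 2) := by
      rw [e]
      ring
    rw [e6]
    unfold rc
    field_simp
    ring
  rw [hfun]
  exact S

end Pool.Agent.H262.QS
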