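import Pool.Agent.H262.QS.T6
import Pool.Agent.H262.QS.T7
import Pool.Agent.H262.QS.T8

set_option autoImplicit false

namespace Pool.Agent.H262.QS

open Real

theorem om_sq (m n : ℕ) : om m n ^ 2 = ((m : ℝ) + 1) ^ 2 + ((n : ℝ) + 1) ^ 2 := by
  unfold om
  rw [Real.sq_sqrt (by positivity)]

theorem one_le_om (m n : ℕ) : 1 ≤ om m n := by
  unfold om
  rw [Real.one_le_sqrt]
  have h1 : (0 : ℝ) ≤ m := Nat.cast_nonneg m
  have h2 : (0 : ℝ) ≤ n := Nat.cast_nonneg n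
  nlinarith

theorem om_pos (m n : ℕ) : 0 < om m n := lt_of_lt_of_le one_pos (one_le_om m n)

theorem abs_rc_le (δ : ℝ) (m : ℕ) : |rc δ m| ≤ 1 / ((m : ℝ) + 1) ^ 2 := by
  unfold rc
  have h : (0 : ℝ) < ((m : ℝ) + 1) ^ 2 := by positivity
  rw [abs_div, abs_mul, abs_pow, abs_pow, abs_neg, abs_one, one_pow, one_mul,
    abs_of_pos h]
  apply div_le_div_of_nonneg_right _ h.le
  exact pow_le_one₀ (abs_nonneg _) (Real.abs_sin_le_one _)

theorem summable_rc (δ : ℝ) : Summable fun m => |rc δ m| := by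
  refine Summable.of_nonneg_of_le (fun m => abs_nonneg _) (fun m => abs_rc_le δ m) ?_
  have h := (summable_nat_add_iff 1).mpr (Real.summable_one_div_nat_pow.mpr (one_lt_two))
  simpa using h

theorem summable_rc2 (δ : ℝ) : Summable fun p : ℕ × ℕ => |rc δ p.1 * rc δ p.2| := by
  have h := (summable_rc δ).mul_of_nonneg (summable_rc δ) (fun m => abs_nonneg _)
    (fun m => abs_nonneg _)
  refine h.congr fun p => ?_
  rw [abs_mul]

/-- the static function -/
noncomputable def ph (δ x y : ℝ) : ℝ :=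
  ∑' p : ℕ × ℕ, rc δ p.1 * rc δ p.2 / om p.1 p.2 ^ 2 *
    (sin (((p.1 : ℝ) + 1) * x) * sin (((p.2 : ℝ) + 1) * y))

theorem abs_ph_term (δ x y : ℝ) (p : ℕ × ℕ) :
    |rc δ p.1 * rc δ p.2 / om p.1 p.2 ^ 2 *
      (sin (((p.1 : ℝ) + 1) * x) * sin (((p.2 : ℝ) + 1) * y))| ≤ |rc δ p.1 * rc δ p.2| := by
  have h1 := one_le_om p.1 p.2
  have h2 : (1 : ℝ) ≤ om p.1 p.2 ^ 2 := one_le_pow₀ h1
  rw [abs_mul, abs_div, abs_of_nonneg (by positivity : (0 : ℝ) ≤ om p.1 p.2 ^ 2), abs_mul (sin _)]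
  have h3 : |rc δ p.1 * rc δ p.2| / om p.1 p.2 ^ 2 ≤ |rc δ p.1 * rc δ p.2| :=
    div_le_self (abs_nonneg _) h2
  have h4 : |sin (((p.1 : ℝ) + 1) * x)| * |sin (((p.2 : ℝ) + 1) * y)| ≤ 1 :=
    mul_le_one₀ (abs_sin_le_one _) (abs_nonneg _) (abs_sin_le_one _)
  calc |rc δ p.1 * rc δ p.2| / om p.1 p.2 ^ 2 *
      (|sin (((p.1 : ℝ) + 1) * x)| * |sin (((p.2 : ℝ) + 1) * y)|)
      ≤ |rc δ p.1 * rc δ p.2| * 1 :=
        mul_le_mul h3 h4 (mul_nonneg (abs_nonneg _) (abs_nonneg _)) (abs_nonneg _)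
    _ = _ := mul_one _

theorem summable_ph (δ x y : ℝ) : Summable fun p : ℕ × ℕ => rc δ p.1 * rc δ p.2 / om p.1 p.2 ^ 2 *
    (sin (((p.1 : ℝ) + 1) * x) * sin (((p.2 : ℝ) + 1) * y)) :=
  Summable.of_norm_bounded (summable_rc2 δ) fun p => abs_ph_term δ x y p

theorem ph_symm (δ x y : ℝ) : ph δ x y = ph δ y x := by
  unfold ph
  rw [← (Equiv.prodComm ℕ ℕ).tsum_eq]
  refine tsum_congr fun p => ?_
  simp only [Equiv.prodComm_apply, Prod.fst_swap, Prod.snd_swap]
  have h : om p.2 p.1 = om p.1 p.2 := by unfold om; rw [add_comm]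
  rw [h]
  ring

theorem ph_eq_hh (δ x y : ℝ) (hδ : 0 ≤ δ) (hy : |y| + 3 * δ ≤ π) :
    ph δ x y = π / 2 * hh δ x y := by
  unfold ph hh
  rw [(summable_ph δ x y).tsum_prod, ← tsum_mul_left]
  refine tsum_congr fun m => ?_
  have ha : (0 : ℝ) < (m : ℝ) + 1 := by positivity
  have h := (inner_series δ ((m : ℝ) + 1) y hδ ha hy).mul_left
    (rc δ m * sin (((m : ℝ) + 1) * x))
  have h2 : ∀ n : ℕ, rc δ m * rc δ n / om m n ^ 2 *
      (sin (((m : ℝ) + 1) * x) * sin (((n : ℝ) + 1) * y)) =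
      rc δ m * sin (((m : ℝ) + 1) * x) * (rc δ n * Real.sin (((n : ℝ) + 1) * y) /
        (((m : ℝ) + 1) ^ 2 + ((n : ℝ) + 1) ^ 2)) := by
    intro n
    rw [om_sq]
    ring
  simp only [h2]
  rw [h.tsum_eq]
  unfold rc cc
  have hs : sinh (((m : ℝ) + 1) * π) ≠ 0 := by
    have : 0 < sinh (((m : ℝ) + 1) * π) := by
      rw [Real.sinh_pos_iff]; positivity
    exact this.ne'
  field_simp

theorem hh_symm (δ x y : ℝ) (hδ : 0 ≤ δ) (hy : |y| + 3 * δ ≤ π) (hx : |x| + 3 * δ ≤ π) :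
    hh δ x y = hh δ y x := by
  have h1 := ph_eq_hh δ x y hδ hy
  have h2 := ph_eq_hh δ y x hδ hx
  rw [ph_symm, h2] at h1
  have hp : (π / 2 : ℝ) ≠ 0 := by positivity
  exact (mul_left_cancel₀ hp h1).symm

theorem abs_cc_le (δ : ℝ) (hδ : 0 < δ) (m : ℕ) :
    |cc δ m| ≤ 4 * exp (((m : ℝ) + 1) * (3 * δ - π)) := by
  have hk : (0 : ℝ) < (m : ℝ) + 1 := by positivity
  have hk1 : (1 : ℝ) ≤ (m : ℝ) + 1 := by
    have : (0 : ℝ) ≤ m := Nat.cast_nonneg m
    linarith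
  set k : ℝ := (m : ℝ) + 1 with hkd
  have hsh : 0 ≤ sinh (k * δ) := Real.sinh_nonneg_iff.mpr (by positivity)
  have h1 : sinh (k * δ) ≤ exp (k * δ) := by
    rw [Real.sinh_eq]
    have : 0 < exp (-(k * δ)) := exp_pos _
    have := exp_pos (k * δ)
    linarith
  have h2 : exp (k * π) / 4 ≤ sinh (k * π) := by
    rw [Real.sinh_eq]
    have e1 : exp (-(k * π)) ≤ 1 / 2 * exp (k * π) := by
      have e2 : (1 : ℝ) ≤ k * π := by nlinarith [Real.pi_gt_three]
      have e3 : exp (-(k * π)) ≤ 1 := by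
        rw [Real.exp_le_one_iff]; linarith
      have e4 : 2 ≤ exp (k * π) := by
        have := Real.add_one_le_exp (k * π)
        linarith
      linarith
    linarith
  have hden : 0 < sinh (k * π) := lt_of_lt_of_le (by positivity) h2
  unfold cc
  rw [← hkd, abs_div, abs_mul, abs_mul, abs_pow, abs_pow, abs_pow, abs_neg, abs_one, one_pow, one_mul,
    abs_of_nonneg hsh, abs_of_pos (by positivity : 0 < k ^ 5 * sinh (k * π))]
  have h3 : |sin (k * δ)| ^ 3 * sinh (k * δ) ^ 3 ≤ exp (k * δ) ^ 3 := by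
    have := pow_le_pow_left₀ hsh h1 3
    have h4 : |sin (k * δ)| ^ 3 ≤ 1 := pow_le_one₀ (abs_nonneg _) (Real.abs_sin_le_one _)
    calc |sin (k * δ)| ^ 3 * sinh (k * δ) ^ 3 ≤ 1 * exp (k * δ) ^ 3 :=
          mul_le_mul h4 this (by positivity) (by norm_num)
      _ = _ := one_mul _
  have h5 : exp (k * π) / 4 ≤ k ^ 5 * sinh (k * π) := by
    have : (1 : ℝ) ≤ k ^ 5 := one_le_pow₀ hk1
    nlinarith
  calc |sin (k * δ)| ^ 3 * sinh (k * δ) ^ 3 / (k ^ 5 * sinh (k * π))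
      ≤ exp (k * δ) ^ 3 / (exp (k * π) / 4) :=
        div_le_div₀ (by positivity) h3 (by positivity) h5
    _ = 4 * exp (k * (3 * δ - π)) := by
        rw [← Real.exp_nat_mul]
        rw [div_div_eq_mul_div, mul_comm, mul_div_assoc, ← Real.exp_sub]
        congr 2
        push_cast
        ring

theorem summable_cc (δ : ℝ) (hδ : 0 < δ) (hδ' : δ ≤ 1 / 1000) :
    Summable fun m : ℕ => |cc δ m| * exp (2 * ((m : ℝ) + 1)) := by
  have hg : Summable fun m : ℕ => 4 * (exp (-1)) ^ m := by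
    refine (summable_geometric_of_lt_one (exp_pos _).le ?_).mul_left 4
    rw [Real.exp_lt_one_iff]; norm_num
  refine Summable.of_nonneg_of_le (fun m => by positivity) (fun m => ?_) hg
  have h := abs_cc_le δ hδ m
  have h0 : (0 : ℝ) ≤ m := Nat.cast_nonneg m
  calc |cc δ m| * exp (2 * ((m : ℝ) + 1))
      ≤ 4 * exp (((m : ℝ) + 1) * (3 * δ - π)) * exp (2 * ((m : ℝ) + 1)) :=
        mul_le_mul_of_nonneg_right h (exp_pos _).le
    _ = 4 * exp (((m : ℝ) + 1) * (3 * δ - π) + 2 * ((m : ℝ) + 1)) := by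
        rw [mul_assoc, ← Real.exp_add]
    _ ≤ 4 * exp ((m : ℝ) * (-1)) := by
        have : ((m : ℝ) + 1) * (3 * δ - π) + 2 * ((m : ℝ) + 1) ≤ (m : ℝ) * (-1) := by
          have := Real.pi_gt_d2
          nlinarith
        have := Real.exp_le_exp.mpr this
        linarith
    _ = 4 * exp (-1) ^ m := by rw [Real.exp_nat_mul]

/-- **Positivity of the static function on the quarter.** -/
theorem hh_pos (δ : ℝ) (hδ : 0 < δ) (hδ' : δ ≤ 1 / 1000) (x y : ℝ) (hx : 0 < x) (hx' : x < π / 2)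
    (hy : 0 < y) (hy' : y < π / 2) : 0 < hh δ x y := by
  obtain ⟨ε, hε, hs⟩ := hh_side δ hδ hδ'
  have hpi := Real.pi_gt_d2
  have hsp : 1 ≤ sinh (π / 2) := by
    have := Real.self_le_sinh_iff.mpr (by positivity : 0 ≤ π / 2)
    linarith
  set ε' : ℝ := ε / sinh (π / 2) with hε'
  have hε'0 : 0 < ε' := by positivity
  have hε'1 : ε' ≤ ε := div_le_self hε.le hsp
  have hε'2 : ε' * sinh (π / 2) = ε := by rw [hε']; field_simp
  have hb : ∀ z : ℝ, 0 ≤ z → z ≤ π / 2 → |z| + 3 * δ ≤ π := by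
    intro z h1 h2
    rw [abs_of_nonneg h1]
    linarith
  let c : ℕ → ℝ := fun m => cc δ m - if m = 0 then ε' else 0
  have hsumm : ∀ x y : ℝ, 0 ≤ y → y ≤ π / 2 → Summable fun m : ℕ =>
      cc δ m * sin (((m : ℝ) + 1) * x) * sinh (((m : ℝ) + 1) * y) := by
    intro x y h1 h2
    refine Summable.of_norm_bounded (summable_cc δ hδ hδ') fun m => ?_
    have hk : (0 : ℝ) < (m : ℝ) + 1 := by positivity
    have e1 : 0 ≤ sinh (((m : ℝ) + 1) * y) := Real.sinh_nonneg_iff.mpr (by positivity)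
    have e2 : sinh (((m : ℝ) + 1) * y) ≤ exp (2 * ((m : ℝ) + 1)) := by
      rw [Real.sinh_eq]
      have e3 : exp (((m : ℝ) + 1) * y) ≤ exp (2 * ((m : ℝ) + 1)) := by
        apply Real.exp_le_exp.mpr
        have := Real.pi_lt_d2
        nlinarith
      have := exp_pos (-(((m : ℝ) + 1) * y))
      have := exp_pos (((m : ℝ) + 1) * y)
      linarith
    rw [Real.norm_eq_abs, abs_mul, abs_mul, abs_of_nonneg e1]
    have e4 : |cc δ m| * |sin (((m : ℝ) + 1) * x)| ≤ |cc δ m| :=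
      mul_le_of_le_one_right (abs_nonneg _) (abs_sin_le_one _)
    exact mul_le_mul e4 e2 e1 (abs_nonneg _)
  have hc_eq : ∀ x y : ℝ, 0 ≤ y → y ≤ π / 2 →
      ∑' m : ℕ, c m * sin (((m : ℝ) + 1) * x) * sinh (((m : ℝ) + 1) * y) =
        hh δ x y - ε' * (sin x * sinh y) := by
    intro x y h1 h2
    have f1 := (hsumm x y h1 h2).hasSum
    have f2 : HasSum (fun m : ℕ => (if m = 0 then ε' else 0) * sin (((m : ℝ) + 1) * x) *
        sinh (((m : ℝ) + 1) * y)) (ε' * (sin x * sinh y)) := by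
      have := hasSum_single (f := fun m : ℕ => (if m = 0 then ε' else 0) *
        sin (((m : ℝ) + 1) * x) * sinh (((m : ℝ) + 1) * y)) 0 (by
          intro m hm
          simp [hm])
      simpa [mul_assoc] using this
    have f3 := f1.sub f2
    have f4 := f3.tsum_eq
    unfold hh
    rw [← f4]
    refine tsum_congr fun m => ?_
    simp only [c]
    ring
  have hcs : Summable fun m : ℕ => |c m| * exp (2 * ((m : ℝ) + 1)) := by
    have g1 : Summable fun m : ℕ => (if m = 0 then ε' else 0) * exp (2 * ((m : ℝ) + 1)) := by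
      refine summable_of_ne_finset_zero (s := {0}) ?_
      intro m hm
      have : m ≠ 0 := by simpa using hm
      simp [this]
    refine Summable.of_nonneg_of_le (fun m => by positivity) (fun m => ?_)
      ((summable_cc δ hδ hδ').add g1)
    rw [← add_mul]
    refine mul_le_mul_of_nonneg_right ?_ (exp_pos _).le
    simp only [c]
    refine (abs_sub _ _).trans ?_
    have : |(if m = 0 then ε' else 0 : ℝ)| = if m = 0 then ε' else 0 := by
      split_ifs
      · exact abs_of_pos hε'0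
      · exact abs_zero
    rw [this]
  have hsinx : ∀ x : ℝ, 0 ≤ x → x ≤ π / 2 → 0 ≤ sin x := fun x h1 h2 =>
    Real.sin_nonneg_of_nonneg_of_le_pi h1 (by linarith)
  have key := max_principle c hcs (by
    intro y h1 h2
    rw [hc_eq _ _ h1 h2, Real.sin_pi_div_two, one_mul]
    have := hs y h1 h2
    have h3 : 0 ≤ sinh y := Real.sinh_nonneg_iff.mpr h1
    nlinarith) (by
    intro x h1 h2
    rw [hc_eq _ _ (by positivity) le_rfl]
    rw [hh_symm δ x (π / 2) hδ.le (hb _ (by positivity) le_rfl) (hb _ h1 h2)]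
    have h3 := hs x h1 h2
    have h4 : x ≤ sinh x := Real.self_le_sinh_iff.mpr h1
    have h5 : sin x ≤ x := Real.sin_le h1
    have h6 : ε' * (sin x * sinh (π / 2)) = ε * sin x := by rw [← hε'2]; ring
    rw [h6]
    nlinarith) x y hx.le hx'.le hy.le hy'.le
  rw [hc_eq _ _ hy.le hy'.le] at key
  have h7 : 0 < sin x := Real.sin_pos_of_pos_of_lt_pi hx (by linarith)
  have h8 : 0 < sinh y := Real.sinh_pos_iff.mpr hy
  have h9 : 0 < ε' * (sin x * sinh y) := by positivity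
  linarith

theorem ph_pos (δ : ℝ) (hδ : 0 < δ) (hδ' : δ ≤ 1 / 1000) (x y : ℝ) (hx : 0 < x) (hx' : x < π / 2)
    (hy : 0 < y) (hy' : y < π / 2) : 0 < ph δ x y := by
  rw [ph_eq_hh δ x y hδ.le (by rw [abs_of_pos hy]; have := Real.pi_gt_d2; linarith)]
  have := hh_pos δ hδ hδ' x y hx hx' hy hy'
  positivity

end Pool.Agent.H262.QS
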