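import Pool.Agent.H262.QS.T5
import Pool.Agent.H262.QS.T9
import Pool.Agent.H262.QS.T10

set_option autoImplicit false

namespace Pool.Agent.H262.QS

open Real

/-- the solution of the wave equation with the initial position `ph` and the initial velocity zero -/
noncomputable def uu (δ τ x y : ℝ) : ℝ :=
  ∑' p : ℕ × ℕ, rc δ p.1 * rc δ p.2 / om p.1 p.2 ^ 2 * cos (om p.1 p.2 * τ) *
    (sin (((p.1 : ℝ) + 1) * x) * sin (((p.2 : ℝ) + 1) * y))

theorem uu_zero (δ x y : ℝ) : uu δ 0 x y = ph δ x y := by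
  unfold uu ph
  refine tsum_congr fun p => ?_
  rw [mul_zero, cos_zero, mul_one]

theorem uu_neg (δ τ x y : ℝ) : uu δ (-τ) x y = uu δ τ x y := by
  unfold uu
  refine tsum_congr fun p => ?_
  rw [mul_neg, cos_neg]

theorem uu_abs (δ τ x y : ℝ) : uu δ |τ| x y = uu δ τ x y := by
  rcases abs_choice τ with h | h <;> rw [h]
  exact uu_neg δ τ x y

theorem hasDerivAt_uu (δ x y τ : ℝ) : HasDerivAt (fun s => uu δ s x y)
    (∑' p : ℕ × ℕ, -(rc δ p.1 * rc δ p.2 * (sin (om p.1 p.2 * τ) / om p.1 p.2) *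
      (sin (((p.1 : ℝ) + 1) * x) * sin (((p.2 : ℝ) + 1) * y)))) τ := by
  unfold uu
  refine hasDerivAt_tsum (u := fun p : ℕ × ℕ => |rc δ p.1 * rc δ p.2|)
    (g := fun (p : ℕ × ℕ) (s : ℝ) => rc δ p.1 * rc δ p.2 / om p.1 p.2 ^ 2 *
      cos (om p.1 p.2 * s) * (sin (((p.1 : ℝ) + 1) * x) * sin (((p.2 : ℝ) + 1) * y)))
    (g' := fun (p : ℕ × ℕ) (s : ℝ) => -(rc δ p.1 * rc δ p.2 * (sin (om p.1 p.2 * s) / om p.1 p.2) *
      (sin (((p.1 : ℝ) + 1) * x) * sin (((p.2 : ℝ) + 1) * y)))) (summable_rc2 δ)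
    (fun p s => ?_) (fun p s => ?_) (y₀ := (0 : ℝ)) ?_ τ
  · have h1 : HasDerivAt (fun s : ℝ => cos (om p.1 p.2 * s))
        (-sin (om p.1 p.2 * s) * (om p.1 p.2 * 1)) s :=
      ((hasDerivAt_id s).const_mul (om p.1 p.2)).cos
    have h2 := (h1.const_mul (rc δ p.1 * rc δ p.2 / om p.1 p.2 ^ 2)).mul_const
      (sin (((p.1 : ℝ) + 1) * x) * sin (((p.2 : ℝ) + 1) * y))
    have h3 := om_pos p.1 p.2
    refine h2.congr_deriv ?_
    field_simp
  · have h1 := one_le_om p.1 p.2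
    have h0 := om_pos p.1 p.2
    rw [norm_neg, Real.norm_eq_abs, abs_mul, abs_mul, abs_div, abs_of_pos h0]
    have h3 : |sin (om p.1 p.2 * s)| / om p.1 p.2 ≤ 1 := by
      rw [div_le_one h0]
      exact (abs_sin_le_one _).trans h1
    have h4 : |sin (((p.1 : ℝ) + 1) * x) * sin (((p.2 : ℝ) + 1) * y)| ≤ 1 := by
      rw [abs_mul]
      exact mul_le_one₀ (abs_sin_le_one _) (abs_nonneg _) (abs_sin_le_one _)
    calc |rc δ p.1 * rc δ p.2| * (|sin (om p.1 p.2 * s)| / om p.1 p.2) *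
        |sin (((p.1 : ℝ) + 1) * x) * sin (((p.2 : ℝ) + 1) * y)|
        ≤ |rc δ p.1 * rc δ p.2| * 1 * 1 := by
          refine mul_le_mul (mul_le_mul_of_nonneg_left h3 (abs_nonneg _)) h4 (abs_nonneg _) ?_
          positivity
      _ = _ := by ring
  · simpa using summable_ph δ x y

/-- **The solution is static on the quarter for a long time.** -/
theorem uu_static (δ τ x y : ℝ) (hδ : 0 ≤ δ) (hδ' : 6 * δ ≤ π) (hx : 0 ≤ x) (hx' : x ≤ π / 2)
    (hy : 0 ≤ y) (hy' : y ≤ π / 2) (hs : τ ^ 2 < 2 * (π / 2 - 3 * δ) ^ 2) :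
    uu δ τ x y = ph δ x y := by
  rw [← uu_abs, ← uu_zero]
  have hd : ∀ s ∈ Set.Ico (0 : ℝ) |τ|, HasDerivWithinAt (fun s => uu δ s x y) 0 (Set.Ici s) s := by
    intro s hs'
    have h1 := hasDerivAt_uu δ x y s
    have h2 := speed δ s x y hδ hδ' hx hx' hy hy' (by
      refine lt_of_le_of_lt ?_ hs
      rw [← sq_abs τ]
      exact pow_le_pow_left₀ hs'.1 hs'.2.le 2)
    rw [tsum_neg, h2, neg_zero] at h1
    exact h1.hasDerivWithinAt
  have hc : ContinuousOn (fun s => uu δ s x y) (Set.Icc (0 : ℝ) |τ|) := fun s _ =>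
    (hasDerivAt_uu δ x y s).continuousAt.continuousWithinAt
  exact constant_of_has_deriv_right_zero hc hd |τ| (Set.right_mem_Icc.mpr (abs_nonneg τ))

end Pool.Agent.H262.QS
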