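import Pool.Agent.H262.QS.T11

set_option autoImplicit false

namespace Pool.Agent.H262.QS

open Real MeasureTheory

/-- the coefficients of the solution at the time `t` -/
noncomputable def bb (δ l T t : ℝ) (p : ℕ × ℕ) : ℝ :=
  rc δ p.1 * rc δ p.2 / om p.1 p.2 ^ 2 * cos (om p.1 p.2 * (π / (2 * l) * (t - T / 2)))

/-- the solution -/
noncomputable def ff (δ l T t : ℝ) (x : ℝ × ℝ) : ℝ :=
  ∑' p : ℕ × ℕ, bb δ l T t p * (sin (((p.1 : ℝ) + 1) * π * x.1 / (2 * l)) *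
    sin (((p.2 : ℝ) + 1) * π * x.2 / (2 * l)))

theorem abs_bb_le (δ l T t : ℝ) (p : ℕ × ℕ) : |bb δ l T t p| ≤ |rc δ p.1 * rc δ p.2| := by
  unfold bb
  have h1 := one_le_om p.1 p.2
  have h2 : (1 : ℝ) ≤ om p.1 p.2 ^ 2 := one_le_pow₀ h1
  rw [abs_mul, abs_div, abs_of_nonneg (by positivity : (0 : ℝ) ≤ om p.1 p.2 ^ 2)]
  have h3 : |rc δ p.1 * rc δ p.2| / om p.1 p.2 ^ 2 ≤ |rc δ p.1 * rc δ p.2| :=
    div_le_self (abs_nonneg _) h2
  calc |rc δ p.1 * rc δ p.2| / om p.1 p.2 ^ 2 * |cos (om p.1 p.2 * (π / (2 * l) * (t - T / 2)))|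
      ≤ |rc δ p.1 * rc δ p.2| * 1 := mul_le_mul h3 (abs_cos_le_one _) (abs_nonneg _) (abs_nonneg _)
    _ = _ := mul_one _

theorem ff_eq_uu (δ l T t : ℝ) (x : ℝ × ℝ) :
    ff δ l T t x = uu δ (π / (2 * l) * (t - T / 2)) (π / (2 * l) * x.1) (π / (2 * l) * x.2) := by
  unfold ff uu bb
  refine tsum_congr fun p => ?_
  have h1 : ((p.1 : ℝ) + 1) * π * x.1 / (2 * l) = ((p.1 : ℝ) + 1) * (π / (2 * l) * x.1) := by ring
  have h2 : ((p.2 : ℝ) + 1) * π * x.2 / (2 * l) = ((p.2 : ℝ) + 1) * (π / (2 * l) * x.2) := by ring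
  rw [h1, h2]

theorem continuous_ff (δ l T : ℝ) : Continuous fun q : ℝ × (ℝ × ℝ) => ff δ l T q.1 q.2 := by
  unfold ff bb
  refine continuous_tsum (u := fun p : ℕ × ℕ => |rc δ p.1 * rc δ p.2|) (fun p => ?_)
    (summable_rc2 δ) (fun p q => ?_)
  · fun_prop
  · rw [norm_mul, Real.norm_eq_abs, Real.norm_eq_abs]
    have h := abs_bb_le δ l T q.1 p
    unfold bb at h
    have h4 : |sin (((p.1 : ℝ) + 1) * π * q.2.1 / (2 * l)) *
        sin (((p.2 : ℝ) + 1) * π * q.2.2 / (2 * l))| ≤ 1 := by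
      rw [abs_mul]
      exact mul_le_one₀ (abs_sin_le_one _) (abs_nonneg _) (abs_sin_le_one _)
    calc _ ≤ |rc δ p.1 * rc δ p.2| * 1 := mul_le_mul h h4 (abs_nonneg _) (abs_nonneg _)
      _ = _ := mul_one _

theorem abs_rc_le_one (δ : ℝ) (m : ℕ) : |rc δ m| ≤ 1 := by
  refine (abs_rc_le δ m).trans ?_
  have h : (0 : ℝ) ≤ m := Nat.cast_nonneg m
  rw [div_le_one (by positivity)]
  nlinarith

/-- **The main theorem in terms of the parameter `δ`.** -/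
theorem main_delta (l : ℝ) (hl : 0 < l) (T : ℝ) (δ : ℝ) (hδ : 0 < δ) (hδ' : δ ≤ 1 / 1000)
    (hT : π / (2 * l) * (T / 2) < sqrt 2 * (π / 2 - 3 * δ)) :
    ∃ a b : ℕ → ℕ → ℝ,
      Summable (fun p : ℕ × ℕ =>
        (((p.1 : ℝ) + 1) ^ 2 + ((p.2 : ℝ) + 1) ^ 2) * (a p.1 p.2 ^ 2 + b p.1 p.2 ^ 2)) ∧
      (∀ t : ℝ,
        MemLp (ff δ l T t) 2
          (volume.restrict (Set.Ioo (0 : ℝ) (2 * l) ×ˢ Set.Ioo (0 : ℝ) (2 * l))) ∧
        ∀ m n : ℕ,
          ∫ x in Set.Ioo (0 : ℝ) (2 * l) ×ˢ Set.Ioo (0 : ℝ) (2 * l),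
              ff δ l T t x * Real.sin (((m : ℝ) + 1) * Real.pi * x.1 / (2 * l))
                * Real.sin (((n : ℝ) + 1) * Real.pi * x.2 / (2 * l))
            = l ^ 2 *
              (a m n * Real.cos (Real.pi / (2 * l)
                  * Real.sqrt (((m : ℝ) + 1) ^ 2 + ((n : ℝ) + 1) ^ 2) * t)
                + b m n * Real.sin (Real.pi / (2 * l)
                  * Real.sqrt (((m : ℝ) + 1) ^ 2 + ((n : ℝ) + 1) ^ 2) * t))) ∧
      ∀ t ∈ Set.Icc (0 : ℝ) T, ∀ x ∈ Set.Ioo (0 : ℝ) l ×ˢ Set.Ioo (0 : ℝ) l,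
        0 < ff δ l T t x ∧ ff δ l T t x = ff δ l T 0 x := by
  refine ⟨fun m n => rc δ m * rc δ n / om m n ^ 2 * cos (om m n * (π / (2 * l) * (T / 2))),
    fun m n => rc δ m * rc δ n / om m n ^ 2 * sin (om m n * (π / (2 * l) * (T / 2))), ?_, ?_, ?_⟩
  · refine Summable.of_nonneg_of_le (fun p => by positivity) (fun p => ?_) (summable_rc2 δ)
    have h1 := om_sq p.1 p.2
    have h2 := one_le_om p.1 p.2
    have h3 := sin_sq_add_cos_sq (om p.1 p.2 * (π / (2 * l) * (T / 2)))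
    have h0 := om_pos p.1 p.2
    have e : (((p.1 : ℝ) + 1) ^ 2 + ((p.2 : ℝ) + 1) ^ 2) *
        ((rc δ p.1 * rc δ p.2 / om p.1 p.2 ^ 2 * cos (om p.1 p.2 * (π / (2 * l) * (T / 2)))) ^ 2 +
        (rc δ p.1 * rc δ p.2 / om p.1 p.2 ^ 2 * sin (om p.1 p.2 * (π / (2 * l) * (T / 2)))) ^ 2) =
        (rc δ p.1 * rc δ p.2) ^ 2 / om p.1 p.2 ^ 2 := by
      rw [← h1]
      have e2 : (rc δ p.1 * rc δ p.2 / om p.1 p.2 ^ 2 *
          cos (om p.1 p.2 * (π / (2 * l) * (T / 2)))) ^ 2 +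
          (rc δ p.1 * rc δ p.2 / om p.1 p.2 ^ 2 *
          sin (om p.1 p.2 * (π / (2 * l) * (T / 2)))) ^ 2 =
          (rc δ p.1 * rc δ p.2 / om p.1 p.2 ^ 2) ^ 2 *
          (sin (om p.1 p.2 * (π / (2 * l) * (T / 2))) ^ 2 +
            cos (om p.1 p.2 * (π / (2 * l) * (T / 2))) ^ 2) := by ring
      rw [e2, h3]
      field_simp
    rw [e]
    have h5 : (rc δ p.1 * rc δ p.2) ^ 2 / om p.1 p.2 ^ 2 ≤ (rc δ p.1 * rc δ p.2) ^ 2 :=
      div_le_self (sq_nonneg _) (one_le_pow₀ h2)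
    refine h5.trans ?_
    rw [← sq_abs]
    have h6 : |rc δ p.1 * rc δ p.2| ≤ 1 := by
      rw [abs_mul]
      exact mul_le_one₀ (abs_rc_le_one δ _) (abs_nonneg _) (abs_rc_le_one δ _)
    nlinarith [abs_nonneg (rc δ p.1 * rc δ p.2)]
  · intro t
    have hB : Summable fun p => |bb δ l T t p| :=
      Summable.of_nonneg_of_le (fun p => abs_nonneg _) (fun p => abs_bb_le δ l T t p)
        (summable_rc2 δ)
    obtain ⟨h1, h2⟩ := coeff l hl (bb δ l T t) hB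
    refine ⟨h1, fun m n => ?_⟩
    have h3 := h2 m n
    unfold ff
    rw [h3]
    congr 1
    unfold bb
    have e1 : om m n * (π / (2 * l) * (t - T / 2)) =
        π / (2 * l) * sqrt (((m : ℝ) + 1) ^ 2 + ((n : ℝ) + 1) ^ 2) * t -
          om m n * (π / (2 * l) * (T / 2)) := by
      unfold om
      ring
    simp only
    rw [e1, cos_sub]
    ring
  · intro t ht x hx
    have hpi := Real.pi_gt_d2
    have hc : 0 < π / (2 * l) := by positivity
    have hd6 : 6 * δ ≤ π := by linarith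
    have hx1 : 0 < π / (2 * l) * x.1 := mul_pos hc hx.1.1
    have hx2 : π / (2 * l) * x.1 < π / 2 := by
      have := mul_lt_mul_of_pos_left hx.1.2 hc
      have e : π / (2 * l) * l = π / 2 := by field_simp
      linarith
    have hy1 : 0 < π / (2 * l) * x.2 := mul_pos hc hx.2.1
    have hy2 : π / (2 * l) * x.2 < π / 2 := by
      have := mul_lt_mul_of_pos_left hx.2.2 hc
      have e : π / (2 * l) * l = π / 2 := by field_simp
      linarith
    have hstat : ∀ t ∈ Set.Icc (0 : ℝ) T, ff δ l T t x =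
        ph δ (π / (2 * l) * x.1) (π / (2 * l) * x.2) := by
      intro t ht
      rw [ff_eq_uu]
      apply uu_static δ _ _ _ hδ.le hd6 hx1.le hx2.le hy1.le hy2.le
      have h1 : |t - T / 2| ≤ T / 2 := by
        rw [abs_le]
        constructor <;> linarith [ht.1, ht.2]
      have h2 : |π / (2 * l) * (t - T / 2)| ≤ π / (2 * l) * (T / 2) := by
        rw [abs_mul, abs_of_pos hc]
        exact mul_le_mul_of_nonneg_left h1 hc.le
      have h3 : |π / (2 * l) * (t - T / 2)| < sqrt 2 * (π / 2 - 3 * δ) := lt_of_le_of_lt h2 hT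
      rw [← sq_abs]
      have h4 : |π / (2 * l) * (t - T / 2)| ^ 2 < (sqrt 2 * (π / 2 - 3 * δ)) ^ 2 :=
        pow_lt_pow_left₀ h3 (abs_nonneg _) (by norm_num)
      rw [mul_pow, Real.sq_sqrt (by norm_num : (0 : ℝ) ≤ 2)] at h4
      exact h4
    have hT0 : (0 : ℝ) ≤ T := ht.1.trans ht.2
    refine ⟨?_, ?_⟩
    · rw [hstat t ht]
      exact ph_pos δ hδ hδ' _ _ hx1 hx2 hy1 hy2
    · rw [hstat t ht, hstat 0 ⟨le_rfl, hT0⟩]

/-- the choice of the parameter `δ` -/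
theorem main_T (l : ℝ) (hl : 0 < l) (T : ℝ) (hT : T < 2 * sqrt 2 * l) :
    ∃ δ : ℝ, 0 < δ ∧ δ ≤ 1 / 1000 ∧ π / (2 * l) * (T / 2) < sqrt 2 * (π / 2 - 3 * δ) := by
  have h2 : 0 < sqrt 2 := by positivity
  have hpi := Real.pi_pos
  have h1 : π / (2 * l) * (T / 2) < sqrt 2 * (π / 2) := by
    have e : π / (2 * l) * (T / 2) = T * (π / (4 * l)) := by ring
    have e2 : sqrt 2 * (π / 2) = 2 * sqrt 2 * l * (π / (4 * l)) := by field_simp; ring
    rw [e, e2]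
    exact mul_lt_mul_of_pos_right hT (by positivity)
  set g : ℝ := sqrt 2 * (π / 2) - π / (2 * l) * (T / 2) with hg
  have hg0 : 0 < g := by rw [hg]; linarith
  refine ⟨min (1 / 1000) (g / (6 * sqrt 2)), by positivity, min_le_left _ _, ?_⟩
  have h3 : min (1 / 1000) (g / (6 * sqrt 2)) ≤ g / (6 * sqrt 2) := min_le_right _ _
  have h4 : 3 * sqrt 2 * min (1 / 1000) (g / (6 * sqrt 2)) ≤ g / 2 := by
    calc 3 * sqrt 2 * min (1 / 1000) (g / (6 * sqrt 2)) ≤ 3 * sqrt 2 * (g / (6 * sqrt 2)) :=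
          mul_le_mul_of_nonneg_left h3 (by positivity)
      _ = g / 2 := by field_simp; ring
  nlinarith

end Pool.Agent.H262.QS
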