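import Pool.Agent.H262.QS.Defs

set_option autoImplicit false

namespace Pool.Agent.H262.QS

open MeasureTheory

theorem T3_one (a : ℝ) (ha : 0 < a) :
    Integrable (fun y : ℝ => if y ^ 2 < a ^ 2 then 1 / Real.sqrt (a ^ 2 - y ^ 2) else 0) ∧
      ∫ y : ℝ, (if y ^ 2 < a ^ 2 then 1 / Real.sqrt (a ^ 2 - y ^ 2) else 0) = Real.pi := by
  have hfun : (fun y : ℝ => if y ^ 2 < a ^ 2 then 1 / Real.sqrt (a ^ 2 - y ^ 2) else 0) =
      Set.indicator (Set.Ioo (-a) a) (fun y => 1 / Real.sqrt (a ^ 2 - y ^ 2)) := by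
    funext y
    by_cases h : y ^ 2 < a ^ 2
    · have h1 : y ∈ Set.Ioo (-a) a := abs_lt.mp (abs_lt_of_sq_lt_sq h ha.le)
      rw [if_pos h, Set.indicator_of_mem h1]
    · have h1 : y ∉ Set.Ioo (-a) a := fun hy => h (sq_lt_sq' hy.1 hy.2)
      rw [if_neg h, Set.indicator_of_notMem h1]
  have hcont : Continuous (fun y : ℝ => Real.arcsin (y / a)) :=
    Real.continuous_arcsin.comp (continuous_id.div_const a)
  have hder : ∀ y ∈ Set.Ioo (-a) a, HasDerivAt (fun y : ℝ => Real.arcsin (y / a))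
      (1 / Real.sqrt (a ^ 2 - y ^ 2)) y := by
    intro y hy
    have h1 : y / a ≠ -1 := by
      intro h
      rw [div_eq_iff ha.ne'] at h
      linarith [hy.1]
    have h2 : y / a ≠ 1 := by
      intro h
      rw [div_eq_iff ha.ne'] at h
      linarith [hy.2]
    have h3 := (Real.hasDerivAt_arcsin h1 h2).comp y ((hasDerivAt_id y).div_const a)
    have h4 : 1 / Real.sqrt (1 - (y / a) ^ 2) * (1 / a) = 1 / Real.sqrt (a ^ 2 - y ^ 2) := by
      have h5 : a ^ 2 - y ^ 2 = a ^ 2 * (1 - (y / a) ^ 2) := by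
        field_simp
      rw [h5, Real.sqrt_mul (by positivity), Real.sqrt_sq ha.le, one_div_mul_one_div, mul_comm]
    rw [← h4]
    exact h3
  have hint : IntegrableOn (fun y : ℝ => 1 / Real.sqrt (a ^ 2 - y ^ 2)) (Set.Ioc (-a) a) :=
    intervalIntegral.integrableOn_deriv_of_nonneg hcont.continuousOn hder
      (fun y _ => by positivity)
  have hab : -a ≤ a := by linarith
  have hval : ∫ y in (-a)..a, 1 / Real.sqrt (a ^ 2 - y ^ 2) = Real.pi := by
    rw [intervalIntegral.integral_eq_sub_of_hasDerivAt_of_le hab hcont.continuousOn hder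
      ((intervalIntegrable_iff_integrableOn_Ioc_of_le hab).2 hint), neg_div, div_self ha.ne',
      Real.arcsin_neg, Real.arcsin_one]
    ring
  rw [hfun]
  constructor
  · rw [integrable_indicator_iff measurableSet_Ioo]
    exact hint.mono_set Set.Ioo_subset_Ioc_self
  · rw [integral_indicator measurableSet_Ioo, ← integral_Ioc_eq_integral_Ioo,
      ← intervalIntegral.integral_of_le hab, hval]

theorem T3_slice (s : ℝ) (hs : 0 < s) (x : ℝ) :
    Integrable (fun y : ℝ => ker s (x, y)) ∧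
      ∫ y : ℝ, ker s (x, y) = Set.indicator (Set.Ioo (-s) s) (fun _ => Real.pi) x := by
  by_cases hx : x ∈ Set.Ioo (-s) s
  · have hc : 0 < s ^ 2 - x ^ 2 := by
      have := sq_lt_sq' hx.1 hx.2
      linarith
    have h1 : (fun y : ℝ => ker s (x, y)) = fun y => if y ^ 2 < (Real.sqrt (s ^ 2 - x ^ 2)) ^ 2 then
        1 / Real.sqrt ((Real.sqrt (s ^ 2 - x ^ 2)) ^ 2 - y ^ 2) else 0 := by
      funext y
      show (if x ^ 2 + y ^ 2 < s ^ 2 then 1 / Real.sqrt (s ^ 2 - (x ^ 2 + y ^ 2)) else 0) = _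
      rw [Real.sq_sqrt hc.le]
      have e : s ^ 2 - (x ^ 2 + y ^ 2) = s ^ 2 - x ^ 2 - y ^ 2 := by ring
      by_cases h : x ^ 2 + y ^ 2 < s ^ 2
      · rw [if_pos h, if_pos (by linarith), e]
      · rw [if_neg h, if_neg (fun h2 => h (by linarith))]
    rw [h1, Set.indicator_of_mem hx]
    exact T3_one _ (Real.sqrt_pos.2 hc)
  · have h1 : (fun y : ℝ => ker s (x, y)) = fun _ => 0 := by
      funext y
      show (if x ^ 2 + y ^ 2 < s ^ 2 then 1 / Real.sqrt (s ^ 2 - (x ^ 2 + y ^ 2)) else 0) = 0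
      rw [if_neg]
      intro h
      apply hx
      exact abs_lt.mp (abs_lt_of_sq_lt_sq (by nlinarith [sq_nonneg y]) hs.le)
    rw [h1, Set.indicator_of_notMem hx]
    exact ⟨integrable_zero _ _ _, integral_zero _ _⟩

theorem T3_nonneg (s : ℝ) (z : ℝ × ℝ) : 0 ≤ ker s z := by
  unfold ker
  split_ifs
  · positivity
  · exact le_rfl

theorem T3_meas (s : ℝ) : Measurable (ker s) := by
  have h1 : Measurable (fun z : ℝ × ℝ => z.1 ^ 2 + z.2 ^ 2) := by fun_prop
  have h2 : Measurable (fun z : ℝ × ℝ => 1 / Real.sqrt (s ^ 2 - (z.1 ^ 2 + z.2 ^ 2))) := by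
    fun_prop
  exact Measurable.ite (measurableSet_lt h1 measurable_const) h2 measurable_const

theorem integrable_ker (s : ℝ) (hs : 0 < s) : Integrable (ker s) (volume : Measure (ℝ × ℝ)) := by
  rw [Measure.volume_eq_prod, integrable_prod_iff (T3_meas s).aestronglyMeasurable]
  refine ⟨ae_of_all _ fun x => (T3_slice s hs x).1, ?_⟩
  have h : (fun x : ℝ => ∫ y : ℝ, ‖ker s (x, y)‖) =
      Set.indicator (Set.Ioo (-s) s) (fun _ => Real.pi) := by
    funext x
    rw [← (T3_slice s hs x).2]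
    have h2 : (fun y : ℝ => ‖ker s (x, y)‖) = fun y => ker s (x, y) := by
      funext y
      rw [Real.norm_of_nonneg (T3_nonneg s _)]
    rw [h2]
  rw [h, integrable_indicator_iff measurableSet_Ioo]
  exact (continuous_const.integrableOn_Icc).mono_set Set.Ioo_subset_Icc_self

/-- the Fourier transform of the kernel, for vectors on the first axis -/
theorem ker_axis (s : ℝ) (hs : 0 < s) (w : ℝ) (hw : 0 < w) :
    ∫ z : ℝ × ℝ, ker s z * Real.cos (w * z.1) = 2 * Real.pi * (Real.sin (w * s) / w) := by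
  have hint : Integrable (fun z : ℝ × ℝ => ker s z * Real.cos (w * z.1))
      (volume : Measure (ℝ × ℝ)) := by
    refine (integrable_ker s hs).mono ?_ (ae_of_all _ fun z => ?_)
    · exact ((T3_meas s).mul (by fun_prop)).aestronglyMeasurable
    · rw [norm_mul]
      refine mul_le_of_le_one_right (norm_nonneg _) ?_
      rw [Real.norm_eq_abs]
      exact Real.abs_cos_le_one _
  rw [Measure.volume_eq_prod] at hint ⊢
  rw [integral_prod _ hint]
  have h : (fun x : ℝ => ∫ y : ℝ, ker s (x, y) * Real.cos (w * (x, y).1)) =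
      Set.indicator (Set.Ioo (-s) s) (fun x => Real.pi * Real.cos (w * x)) := by
    funext x
    show ∫ y : ℝ, ker s (x, y) * Real.cos (w * x) = _
    rw [integral_mul_const, (T3_slice s hs x).2]
    by_cases hx : x ∈ Set.Ioo (-s) s
    · rw [Set.indicator_of_mem hx, Set.indicator_of_mem hx]
    · rw [Set.indicator_of_notMem hx, Set.indicator_of_notMem hx, zero_mul]
  rw [h, integral_indicator measurableSet_Ioo, ← integral_Ioc_eq_integral_Ioo,
    ← intervalIntegral.integral_of_le (by linarith), intervalIntegral.integral_const_mul]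
  have h2 : ∫ x in (-s)..s, Real.cos (w * x) =
      w⁻¹ * (Real.sin (w * s) - Real.sin (w * (-s))) := by
    rw [intervalIntegral.integral_comp_mul_left (fun x => Real.cos x) hw.ne', integral_cos,
      smul_eq_mul]
  rw [h2, mul_neg, Real.sin_neg]
  ring

end Pool.Agent.H262.QS
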