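import Pool.Agent.H262.QS.T3

set_option autoImplicit false

namespace Pool.Agent.H262.QS

open MeasureTheory

/-- the rotation of the plane by a unit complex number -/
noncomputable def T4_rot (c : Circle) : (ℝ × ℝ) ≃ᵐ (ℝ × ℝ) :=
  (Complex.measurableEquivRealProd.symm.trans
    (rotation c).toHomeomorph.toMeasurableEquiv).trans Complex.measurableEquivRealProd

theorem T4_rot_apply (c : Circle) (z : ℝ × ℝ) :
    T4_rot c z = ((c : ℂ).re * z.1 - (c : ℂ).im * z.2, (c : ℂ).re * z.2 + (c : ℂ).im * z.1) := by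
  show Complex.measurableEquivRealProd (rotation c (Complex.measurableEquivRealProd.symm z)) = _
  rw [rotation_apply, Complex.measurableEquivRealProd_apply, Complex.mul_re, Complex.mul_im]
  rfl

theorem T4_rot_mp (c : Circle) : MeasurePreserving (T4_rot c) volume volume := by
  have h1 : MeasurePreserving Complex.measurableEquivRealProd.symm volume volume :=
    Complex.volume_preserving_equiv_real_prod.symm _
  have h2 : MeasurePreserving (rotation c) volume volume := LinearIsometryEquiv.measurePreserving _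
  exact (Complex.volume_preserving_equiv_real_prod.comp (h2.comp h1))

/-- the Fourier transform of the kernel: it is invariant under rotations (use `ker_axis`) -/
theorem ker_fourier (s : ℝ) (hs : 0 < s) (a b : ℝ) (hab : 0 < a ^ 2 + b ^ 2) :
    ∫ z : ℝ × ℝ, ker s z * Real.cos (a * z.1 + b * z.2) =
      2 * Real.pi * (Real.sin (Real.sqrt (a ^ 2 + b ^ 2) * s) / Real.sqrt (a ^ 2 + b ^ 2)) := by
  obtain ⟨r, hr⟩ : ∃ r, r = Real.sqrt (a ^ 2 + b ^ 2) := ⟨_, rfl⟩
  have hr0 : 0 < r := by rw [hr]; exact Real.sqrt_pos.2 hab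
  have hr2 : r ^ 2 = a ^ 2 + b ^ 2 := by rw [hr, Real.sq_sqrt hab.le]
  rw [← hr, ← ker_axis s hs r hr0]
  have hnorm : (a / r) ^ 2 + (-(b / r)) ^ 2 = 1 := by
    rw [neg_sq, div_pow, div_pow, ← add_div, hr2]
    exact div_self hab.ne'
  obtain ⟨c, hc⟩ : ∃ c : Circle, (c : ℂ) = ⟨a / r, -(b / r)⟩ := by
    refine ⟨⟨⟨a / r, -(b / r)⟩, ?_⟩, rfl⟩
    show _ ∈ Metric.sphere (0 : ℂ) 1
    rw [mem_sphere_zero_iff_norm]
    have h1 : ‖(⟨a / r, -(b / r)⟩ : ℂ)‖ ^ 2 = 1 := by
      rw [Complex.sq_norm, Complex.normSq_mk]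
      linarith
    exact (pow_eq_one_iff_of_nonneg (norm_nonneg _) two_ne_zero).mp h1
  have h := (T4_rot_mp c).integral_comp (T4_rot c).measurableEmbedding
    (fun z : ℝ × ℝ => ker s z * Real.cos (r * z.1))
  rw [← h]
  congr 1
  funext z
  have e1 : (T4_rot c z).1 = (a * z.1 + b * z.2) / r := by
    rw [T4_rot_apply, hc]
    field_simp
    ring
  have e2 : (T4_rot c z).2 = (a * z.2 - b * z.1) / r := by
    rw [T4_rot_apply, hc]
    field_simp
    ring
  have e3 : (T4_rot c z).1 ^ 2 + (T4_rot c z).2 ^ 2 = z.1 ^ 2 + z.2 ^ 2 := by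
    rw [e1, e2, div_pow, div_pow, ← add_div, hr2, div_eq_iff hab.ne']
    ring
  have e4 : r * (T4_rot c z).1 = a * z.1 + b * z.2 := by
    rw [e1, mul_div_cancel₀ _ hr0.ne']
  have e5 : ker s (T4_rot c z) = ker s z := by
    unfold ker
    rw [e3]
  show _ = ker s (T4_rot c z) * Real.cos (r * (T4_rot c z).1)
  rw [e4, e5]

theorem T4_integrable (s : ℝ) (hs : 0 < s) (g : ℝ × ℝ → ℝ) (hg : Continuous g) (hb : ∀ z, |g z| ≤ 1) :
    Integrable (fun z => ker s z * g z) (volume : Measure (ℝ × ℝ)) := by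
  refine (integrable_ker s hs).mono ((integrable_ker s hs).1.mul hg.aestronglyMeasurable)
    (Filter.Eventually.of_forall fun z => ?_)
  rw [norm_mul, Real.norm_eq_abs (g z)]
  exact mul_le_of_le_one_right (norm_nonneg _) (hb z)

theorem T4_odd (s : ℝ) (a b : ℝ) :
    ∫ z : ℝ × ℝ, ker s z * Real.sin (a * z.1 + b * z.2) = 0 := by
  have h1 := integral_neg_eq_self (fun z : ℝ × ℝ => ker s z * Real.sin (a * z.1 + b * z.2)) volume
  have h2 : ∀ z : ℝ × ℝ, ker s (-z) * Real.sin (a * (-z).1 + b * (-z).2) =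
      -(ker s z * Real.sin (a * z.1 + b * z.2)) := by
    intro z
    have e1 : ker s (-z) = ker s z := by
      unfold ker
      simp only [Prod.fst_neg, Prod.snd_neg, neg_sq]
    have e2 : a * (-z).1 + b * (-z).2 = -(a * z.1 + b * z.2) := by
      simp only [Prod.fst_neg, Prod.snd_neg]
      ring
    rw [e1, e2, Real.sin_neg]
    ring
  simp only [h2] at h1
  rw [integral_neg] at h1
  linarith

/-- the form used for the modes -/
theorem ker_modes (s : ℝ) (hs : 0 < s) (a b x y : ℝ) (hab : 0 < a ^ 2 + b ^ 2) :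
    ∫ z : ℝ × ℝ, ker s z * (Real.sin (a * (x - z.1)) * Real.sin (b * (y - z.2))) =
      2 * Real.pi * (Real.sin (Real.sqrt (a ^ 2 + b ^ 2) * s) / Real.sqrt (a ^ 2 + b ^ 2)) *
        (Real.sin (a * x) * Real.sin (b * y)) := by
  have k1 := ker_fourier s hs a b hab
  have k2 := ker_fourier s hs a (-b) (by rw [neg_sq]; exact hab)
  rw [neg_sq] at k2
  have o1 := T4_odd s a b
  have o2 := T4_odd s a (-b)
  have i1 : Integrable (fun z : ℝ × ℝ => ker s z * Real.cos (a * z.1 + b * z.2)) volume :=
    T4_integrable s hs _ (by fun_prop) (fun z => Real.abs_cos_le_one _)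
  have i2 : Integrable (fun z : ℝ × ℝ => ker s z * Real.cos (a * z.1 + -b * z.2)) volume :=
    T4_integrable s hs _ (by fun_prop) (fun z => Real.abs_cos_le_one _)
  have i3 : Integrable (fun z : ℝ × ℝ => ker s z * Real.sin (a * z.1 + b * z.2)) volume :=
    T4_integrable s hs _ (by fun_prop) (fun z => Real.abs_sin_le_one _)
  have i4 : Integrable (fun z : ℝ × ℝ => ker s z * Real.sin (a * z.1 + -b * z.2)) volume :=
    T4_integrable s hs _ (by fun_prop) (fun z => Real.abs_sin_le_one _)
  have key : ∀ z : ℝ × ℝ, ker s z * (Real.sin (a * (x - z.1)) * Real.sin (b * (y - z.2))) =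
      (Real.cos (a * x - b * y) / 2) * (ker s z * Real.cos (a * z.1 + -b * z.2)) +
      (Real.sin (a * x - b * y) / 2) * (ker s z * Real.sin (a * z.1 + -b * z.2)) -
      ((Real.cos (a * x + b * y) / 2) * (ker s z * Real.cos (a * z.1 + b * z.2)) +
      (Real.sin (a * x + b * y) / 2) * (ker s z * Real.sin (a * z.1 + b * z.2))) := by
    intro z
    have h1 : Real.cos (a * (x - z.1) - b * (y - z.2)) =
        Real.cos (a * x - b * y) * Real.cos (a * z.1 + -b * z.2) +
        Real.sin (a * x - b * y) * Real.sin (a * z.1 + -b * z.2) := by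
      rw [← Real.cos_sub]
      congr 1
      ring
    have h2 : Real.cos (a * (x - z.1) + b * (y - z.2)) =
        Real.cos (a * x + b * y) * Real.cos (a * z.1 + b * z.2) +
        Real.sin (a * x + b * y) * Real.sin (a * z.1 + b * z.2) := by
      rw [← Real.cos_sub]
      congr 1
      ring
    have h3 := Real.cos_sub (a * (x - z.1)) (b * (y - z.2))
    have h4 := Real.cos_add (a * (x - z.1)) (b * (y - z.2))
    have h5 : Real.sin (a * (x - z.1)) * Real.sin (b * (y - z.2)) =
        (Real.cos (a * (x - z.1) - b * (y - z.2)) - Real.cos (a * (x - z.1) + b * (y - z.2))) / 2 := by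
      rw [h3, h4]
      ring
    rw [h5, h1, h2]
    ring
  have j1 : Integrable (fun z : ℝ × ℝ =>
      (Real.cos (a * x - b * y) / 2) * (ker s z * Real.cos (a * z.1 + -b * z.2)) +
      (Real.sin (a * x - b * y) / 2) * (ker s z * Real.sin (a * z.1 + -b * z.2))) volume :=
    (i2.const_mul _).add (i4.const_mul _)
  have j2 : Integrable (fun z : ℝ × ℝ =>
      (Real.cos (a * x + b * y) / 2) * (ker s z * Real.cos (a * z.1 + b * z.2)) +
      (Real.sin (a * x + b * y) / 2) * (ker s z * Real.sin (a * z.1 + b * z.2))) volume :=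
    (i1.const_mul _).add (i3.const_mul _)
  simp only [key]
  rw [integral_sub j1 j2, integral_add (i2.const_mul (Real.cos (a * x - b * y) / 2))
      (i4.const_mul (Real.sin (a * x - b * y) / 2)),
    integral_add (i1.const_mul (Real.cos (a * x + b * y) / 2))
      (i3.const_mul (Real.sin (a * x + b * y) / 2)),
    integral_const_mul, integral_const_mul, integral_const_mul, integral_const_mul, k1, k2, o1, o2,
    Real.cos_sub, Real.cos_add]
  ring

end Pool.Agent.H262.QS
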