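import Pool.Agent.H262.QS.T2
import Pool.Agent.H262.QS.T4

set_option autoImplicit false

namespace Pool.Agent.H262.QS

open MeasureTheory

theorem T5_rc_abs (δ : ℝ) (m : ℕ) : ‖rc δ m‖ ≤ 1 / ((m : ℝ) + 1) ^ 2 := by
  unfold rc
  rw [Real.norm_eq_abs, abs_div, abs_mul, abs_pow, abs_pow, abs_neg, abs_one, one_pow, one_mul,
    abs_of_pos (show (0 : ℝ) < ((m : ℝ) + 1) ^ 2 by positivity)]
  exact div_le_div_of_nonneg_right (pow_le_one₀ (abs_nonneg _) (Real.abs_sin_le_one _)) (by positivity)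

theorem T5_rc_sin_summable (δ t : ℝ) :
    Summable fun m : ℕ => ‖rc δ m * Real.sin (((m : ℝ) + 1) * t)‖ := by
  have h1 : Summable fun m : ℕ => 1 / ((m : ℝ) + 1) ^ 2 := by
    have := (summable_nat_add_iff 1).2 (Real.summable_one_div_nat_pow.2 (one_lt_two))
    exact this.congr fun m => by push_cast; rfl
  refine Summable.of_nonneg_of_le (fun _ => norm_nonneg _) (fun m => ?_) h1
  rw [norm_mul]
  calc ‖rc δ m‖ * ‖Real.sin (((m : ℝ) + 1) * t)‖ ≤ ‖rc δ m‖ * 1 :=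
        mul_le_mul_of_nonneg_left (Real.abs_sin_le_one _) (norm_nonneg _)
    _ ≤ _ := by rw [mul_one]; exact T5_rc_abs δ m

theorem T5_rc_summable (δ : ℝ) : Summable fun m : ℕ => ‖rc δ m‖ := by
  have h1 : Summable fun m : ℕ => 1 / ((m : ℝ) + 1) ^ 2 := by
    have := (summable_nat_add_iff 1).2 (Real.summable_one_div_nat_pow.2 (one_lt_two))
    exact this.congr fun m => by push_cast; rfl
  exact Summable.of_nonneg_of_le (fun _ => norm_nonneg _) (fun m => T5_rc_abs δ m) h1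

theorem T5_ker_nonneg (s : ℝ) (z : ℝ × ℝ) : 0 ≤ ker s z := by
  unfold ker
  split_ifs
  · positivity
  · exact le_rfl

/-- the sum vanishes where the kernel does not -/
theorem T5_point (δ s x y : ℝ) (hδ : 0 ≤ δ) (hδ' : 6 * δ ≤ Real.pi) (hx : 0 ≤ x)
    (hx' : x ≤ Real.pi / 2) (hy : 0 ≤ y) (hy' : y ≤ Real.pi / 2)
    (hs : s ^ 2 < 2 * (Real.pi / 2 - 3 * δ) ^ 2) (z : ℝ × ℝ) :
    ∑' p : ℕ × ℕ, rc δ p.1 * rc δ p.2 * (ker s z * (Real.sin (((p.1 : ℝ) + 1) * (x - z.1)) *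
      Real.sin (((p.2 : ℝ) + 1) * (y - z.2)))) = 0 := by
  by_cases hk : ker s z = 0
  · simp [hk]
  have hz : z.1 ^ 2 + z.2 ^ 2 < s ^ 2 := by
    by_contra hcon
    exact hk (by unfold ker; rw [if_neg hcon])
  have h1 : (∑' m : ℕ, rc δ m * Real.sin (((m : ℝ) + 1) * (x - z.1))) *
      (∑' n : ℕ, rc δ n * Real.sin (((n : ℝ) + 1) * (y - z.2))) =
      ∑' p : ℕ × ℕ, rc δ p.1 * Real.sin (((p.1 : ℝ) + 1) * (x - z.1)) *
        (rc δ p.2 * Real.sin (((p.2 : ℝ) + 1) * (y - z.2))) :=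
    tsum_mul_tsum_of_summable_norm (T5_rc_sin_summable δ _) (T5_rc_sin_summable δ _)
  have h2 : ∀ p : ℕ × ℕ, rc δ p.1 * rc δ p.2 * (ker s z * (Real.sin (((p.1 : ℝ) + 1) * (x - z.1)) *
      Real.sin (((p.2 : ℝ) + 1) * (y - z.2)))) =
      ker s z * (rc δ p.1 * Real.sin (((p.1 : ℝ) + 1) * (x - z.1)) *
        (rc δ p.2 * Real.sin (((p.2 : ℝ) + 1) * (y - z.2)))) := fun p => by ring
  rw [tsum_congr h2, tsum_mul_left, ← h1]
  have h3 : |x - z.1| + 3 * δ ≤ Real.pi ∨ |y - z.2| + 3 * δ ≤ Real.pi := by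
    by_contra hcon
    push Not at hcon
    obtain ⟨ha, hb⟩ := hcon
    have hr : 0 ≤ Real.pi / 2 - 3 * δ := by linarith
    have ha' : Real.pi / 2 - 3 * δ < |z.1| := by
      have h4 : |x - z.1| ≤ |x| + |z.1| := abs_sub _ _
      rw [abs_of_nonneg hx] at h4
      linarith
    have hb' : Real.pi / 2 - 3 * δ < |z.2| := by
      have h4 : |y - z.2| ≤ |y| + |z.2| := abs_sub _ _
      rw [abs_of_nonneg hy] at h4
      linarith
    have h5 : (Real.pi / 2 - 3 * δ) ^ 2 < z.1 ^ 2 := by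
      rw [← sq_abs z.1]
      exact pow_lt_pow_left₀ ha' hr two_ne_zero
    have h6 : (Real.pi / 2 - 3 * δ) ^ 2 < z.2 ^ 2 := by
      rw [← sq_abs z.2]
      exact pow_lt_pow_left₀ hb' hr two_ne_zero
    linarith
  rcases h3 with h3 | h3
  · rw [(rc_series δ _ hδ h3).tsum_eq, zero_mul, mul_zero]
  · rw [(rc_series δ _ hδ h3).tsum_eq, mul_zero, mul_zero]

theorem T5_pos (δ s x y : ℝ) (hs0 : 0 < s) (hδ : 0 ≤ δ) (hδ' : 6 * δ ≤ Real.pi) (hx : 0 ≤ x)
    (hx' : x ≤ Real.pi / 2) (hy : 0 ≤ y) (hy' : y ≤ Real.pi / 2)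
    (hs : s ^ 2 < 2 * (Real.pi / 2 - 3 * δ) ^ 2) :
    ∑' p : ℕ × ℕ, rc δ p.1 * rc δ p.2 * (Real.sin (om p.1 p.2 * s) / om p.1 p.2) *
      (Real.sin (((p.1 : ℝ) + 1) * x) * Real.sin (((p.2 : ℝ) + 1) * y)) = 0 := by
  set F : ℕ × ℕ → ℝ × ℝ → ℝ := fun p z => rc δ p.1 * rc δ p.2 *
    (ker s z * (Real.sin (((p.1 : ℝ) + 1) * (x - z.1)) *
      Real.sin (((p.2 : ℝ) + 1) * (y - z.2)))) with hF
  have hkI : Integrable (ker s) := integrable_ker s hs0
  have hbd : ∀ (p : ℕ × ℕ) (z : ℝ × ℝ), ‖Real.sin (((p.1 : ℝ) + 1) * (x - z.1)) *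
      Real.sin (((p.2 : ℝ) + 1) * (y - z.2))‖ ≤ 1 := by
    intro p z
    rw [norm_mul]
    exact mul_le_one₀ (Real.abs_sin_le_one _) (norm_nonneg _) (Real.abs_sin_le_one _)
  have hint1 : ∀ p : ℕ × ℕ, Integrable (fun z : ℝ × ℝ => ker s z *
      (Real.sin (((p.1 : ℝ) + 1) * (x - z.1)) * Real.sin (((p.2 : ℝ) + 1) * (y - z.2)))) := by
    intro p
    have hc : Continuous fun z : ℝ × ℝ => Real.sin (((p.1 : ℝ) + 1) * (x - z.1)) *
        Real.sin (((p.2 : ℝ) + 1) * (y - z.2)) := by fun_prop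
    refine Integrable.mono' hkI (hkI.aestronglyMeasurable.mul hc.aestronglyMeasurable) ?_
    filter_upwards with z
    rw [norm_mul, Real.norm_of_nonneg (T5_ker_nonneg s z)]
    calc ker s z * ‖Real.sin (((p.1 : ℝ) + 1) * (x - z.1)) *
          Real.sin (((p.2 : ℝ) + 1) * (y - z.2))‖ ≤ ker s z * 1 :=
          mul_le_mul_of_nonneg_left (hbd p z) (T5_ker_nonneg s z)
      _ = ker s z := mul_one _
  have hint : ∀ p, Integrable (F p) := fun p => (hint1 p).const_mul _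
  have hsum : Summable fun p => ∫ z, ‖F p z‖ := by
    have h1 : Summable fun p : ℕ × ℕ => ‖rc δ p.1‖ * ‖rc δ p.2‖ :=
      (T5_rc_summable δ).mul_of_nonneg (T5_rc_summable δ) (fun _ => norm_nonneg _)
        (fun _ => norm_nonneg _)
    refine Summable.of_nonneg_of_le (fun p => integral_nonneg fun z => norm_nonneg _) (fun p => ?_)
      (h1.mul_right (∫ z, ker s z))
    rw [← integral_const_mul]
    refine integral_mono (hint p).norm (hkI.const_mul _) fun z => ?_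
    simp only [hF]
    rw [norm_mul, norm_mul, norm_mul (ker s z), Real.norm_of_nonneg (T5_ker_nonneg s z)]
    refine mul_le_mul_of_nonneg_left ?_ (by positivity)
    calc ker s z * ‖Real.sin (((p.1 : ℝ) + 1) * (x - z.1)) *
          Real.sin (((p.2 : ℝ) + 1) * (y - z.2))‖ ≤ ker s z * 1 :=
          mul_le_mul_of_nonneg_left (hbd p z) (T5_ker_nonneg s z)
      _ = ker s z := mul_one _
  have h1 := integral_tsum_of_summable_integral_norm hint hsum
  have h2 : ∀ z, ∑' p, F p z = 0 := fun z => T5_point δ s x y hδ hδ' hx hx' hy hy' hs z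
  simp only [h2, integral_zero] at h1
  have h3 : ∀ p : ℕ × ℕ, rc δ p.1 * rc δ p.2 * (Real.sin (om p.1 p.2 * s) / om p.1 p.2) *
      (Real.sin (((p.1 : ℝ) + 1) * x) * Real.sin (((p.2 : ℝ) + 1) * y)) =
      (2 * Real.pi)⁻¹ * ∫ z, F p z := by
    intro p
    have h4 := ker_modes s hs0 ((p.1 : ℝ) + 1) ((p.2 : ℝ) + 1) x y (by positivity)
    simp only [hF]
    rw [integral_const_mul, h4]
    unfold om
    have hpi : (2 * Real.pi) ≠ 0 := by positivity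
    field_simp
  rw [tsum_congr h3, tsum_mul_left, h1, mul_zero]

/-- **Finite speed of propagation.** (Use `ker_modes`, `integrable_ker` and `rc_series`; the kernel vanishes
for `|z| ≥ |s|`, and for `|z| < |s|` one of the numbers `|x - z.1|`, `|y - z.2|` is less than `π - 3 δ`.) -/
theorem speed (δ s x y : ℝ) (hδ : 0 ≤ δ) (hδ' : 6 * δ ≤ Real.pi) (hx : 0 ≤ x) (hx' : x ≤ Real.pi / 2)
    (hy : 0 ≤ y) (hy' : y ≤ Real.pi / 2) (hs : s ^ 2 < 2 * (Real.pi / 2 - 3 * δ) ^ 2) :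
    ∑' p : ℕ × ℕ, rc δ p.1 * rc δ p.2 * (Real.sin (om p.1 p.2 * s) / om p.1 p.2) *
      (Real.sin (((p.1 : ℝ) + 1) * x) * Real.sin (((p.2 : ℝ) + 1) * y)) = 0 := by
  rcases lt_trichotomy s 0 with h | h | h
  · have h1 := T5_pos δ (-s) x y (by linarith) hδ hδ' hx hx' hy hy' (by rw [neg_sq]; exact hs)
    have h2 : ∀ p : ℕ × ℕ, rc δ p.1 * rc δ p.2 * (Real.sin (om p.1 p.2 * s) / om p.1 p.2) *
      (Real.sin (((p.1 : ℝ) + 1) * x) * Real.sin (((p.2 : ℝ) + 1) * y)) =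
      -(rc δ p.1 * rc δ p.2 * (Real.sin (om p.1 p.2 * -s) / om p.1 p.2) *
      (Real.sin (((p.1 : ℝ) + 1) * x) * Real.sin (((p.2 : ℝ) + 1) * y))) := by
      intro p
      rw [mul_neg, Real.sin_neg]
      ring
    rw [tsum_congr h2, tsum_neg, h1, neg_zero]
  · subst h
    simp
  · exact T5_pos δ s x y h hδ hδ' hx hx' hy hy' hs

end Pool.Agent.H262.QS
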