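import Pool.Agent.H262.QS.Defs

set_option autoImplicit false

namespace Pool.Agent.H262.QS

theorem T6_exp_pi : 20 ≤ Real.exp Real.pi := by
  have h1 : Real.exp 3 ≤ Real.exp Real.pi := Real.exp_le_exp.2 Real.pi_gt_three.le
  have h2 : Real.exp 3 = Real.exp 1 ^ 3 := by
    rw [Real.exp_one_pow]
    norm_num
  have h3 := Real.exp_one_gt_d9
  have h4 : (2.7182818283 : ℝ) ^ 3 ≤ Real.exp 1 ^ 3 := pow_le_pow_left₀ (by norm_num) h3.le 3
  have h5 : (20 : ℝ) ≤ 2.7182818283 ^ 3 := by norm_num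
  linarith

theorem T6_sinh_le (x : ℝ) : Real.sinh x ≤ x * Real.exp x := by
  have h1 : 1 - 2 * x ≤ Real.exp (-(2 * x)) := Real.one_sub_le_exp_neg (2 * x)
  have h2 : Real.exp (-(2 * x)) * Real.exp x = Real.exp (-x) := by
    rw [← Real.exp_add]
    congr 1
    ring
  have h3 := mul_le_mul_of_nonneg_right h1 (Real.exp_pos x).le
  rw [h2] at h3
  rw [Real.sinh_eq]
  linarith

theorem T6_cosh_le {x : ℝ} (hx : 0 ≤ x) : Real.cosh x ≤ Real.exp x := by
  rw [Real.cosh_eq]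
  have h1 : Real.exp (-x) ≤ Real.exp x := Real.exp_le_exp.2 (by linarith)
  linarith

theorem T6_sinh_mul {y : ℝ} (hy : 0 ≤ y) (n : ℕ) :
    Real.sinh (((n : ℝ) + 1) * y) ≤ ((n : ℝ) + 1) * Real.exp (n * y) * Real.sinh y := by
  have hs : 0 ≤ Real.sinh y := Real.sinh_nonneg_iff.2 hy
  induction n with
  | zero => simp
  | succ n ih =>
    have e1 : ((((n + 1 : ℕ) : ℝ)) + 1) * y = ((n : ℝ) + 1) * y + y := by
      push_cast
      ring
    have hny : 0 ≤ ((n : ℝ) + 1) * y := by positivity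
    rw [e1, Real.sinh_add]
    have h1 : Real.sinh (((n : ℝ) + 1) * y) * Real.cosh y ≤
        (((n : ℝ) + 1) * Real.exp (n * y) * Real.sinh y) * Real.exp y :=
      mul_le_mul ih (T6_cosh_le hy) (Real.cosh_pos y).le (by positivity)
    have h2 : Real.cosh (((n : ℝ) + 1) * y) * Real.sinh y ≤
        Real.exp (((n : ℝ) + 1) * y) * Real.sinh y :=
      mul_le_mul_of_nonneg_right (T6_cosh_le hny) hs
    have e2 : Real.exp ((n : ℝ) * y) * Real.exp y = Real.exp (((n : ℝ) + 1) * y) := by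
      rw [← Real.exp_add]
      congr 1
      ring
    have e3 : ((((n : ℝ) + 1) * Real.exp (n * y) * Real.sinh y) * Real.exp y) =
        ((n : ℝ) + 1) * Real.exp (((n : ℝ) + 1) * y) * Real.sinh y := by
      rw [← e2]
      ring
    rw [e3] at h1
    push_cast
    linarith

theorem T6_sinh_pi (n : ℕ) :
    49 / 100 * Real.exp (((n : ℝ) + 1) * Real.pi) ≤ Real.sinh (((n : ℝ) + 1) * Real.pi) := by
  have hpi := Real.pi_pos
  have h0 : Real.pi ≤ ((n : ℝ) + 1) * Real.pi := by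
    have : 0 ≤ (n : ℝ) * Real.pi := by positivity
    linarith
  have h1 : 20 ≤ Real.exp (((n : ℝ) + 1) * Real.pi) := T6_exp_pi.trans (Real.exp_le_exp.2 h0)
  have h2 : Real.exp (-(((n : ℝ) + 1) * Real.pi)) ≤ 1 / 20 := by
    rw [Real.exp_neg, inv_eq_one_div]
    exact one_div_le_one_div_of_le (by norm_num) h1
  rw [Real.sinh_eq]
  linarith

theorem T6_sin_le {x : ℝ} (hx : 0 ≤ x) : |Real.sin x| ≤ x := by
  refine abs_le.2 ⟨?_, Real.sin_le hx⟩
  by_cases h : x ≤ Real.pi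
  · have := Real.sin_nonneg_of_nonneg_of_le_pi hx h
    linarith
  · push Not at h
    have h1 := Real.neg_one_le_sin x
    have h2 := Real.pi_gt_three
    linarith

/-- the bound of one term -/
theorem T6_term (δ y : ℝ) (hδ : 0 < δ) (hy0 : 0 ≤ y) (hy : y ≤ Real.pi / 2) (m : ℕ) :
    |cc δ m * Real.sin (((m : ℝ) + 1) * (Real.pi / 2)) * Real.sinh (((m : ℝ) + 1) * y)| ≤
      δ ^ 6 * Real.sinh y * (100 / 49) * (((m : ℝ) + 1) ^ 2 * Real.exp (3 * δ) ^ (m + 1) *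
        Real.exp (-(Real.pi / 2)) ^ (m + 2)) := by
  obtain ⟨k, hk⟩ : ∃ k : ℝ, k = (m : ℝ) + 1 := ⟨_, rfl⟩
  have hk0 : 0 < k := by rw [hk]; positivity
  have hs : 0 ≤ Real.sinh y := Real.sinh_nonneg_iff.2 hy0
  have hkd : 0 ≤ k * δ := by positivity
  have a1 : |Real.sin (k * δ)| ≤ k * δ := T6_sin_le hkd
  have a2 : Real.sinh (k * δ) ≤ k * δ * Real.exp (k * δ) := T6_sinh_le (k * δ)
  have a2' : 0 ≤ Real.sinh (k * δ) := Real.sinh_nonneg_iff.2 hkd
  have a3 : Real.sinh (k * y) ≤ k * Real.exp (m * y) * Real.sinh y := by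
    rw [hk]
    exact T6_sinh_mul hy0 m
  have a3' : 0 ≤ Real.sinh (k * y) := Real.sinh_nonneg_iff.2 (by positivity)
  have a4 : 49 / 100 * Real.exp (k * Real.pi) ≤ Real.sinh (k * Real.pi) := by
    rw [hk]
    exact T6_sinh_pi m
  have a5 : Real.exp (m * y) ≤ Real.exp (m * (Real.pi / 2)) :=
    Real.exp_le_exp.2 (mul_le_mul_of_nonneg_left hy (Nat.cast_nonneg m))
  have hE : 0 < Real.exp (k * Real.pi) := Real.exp_pos _
  have hS : 0 < Real.sinh (k * Real.pi) := by linarith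
  unfold cc
  rw [← hk]
  rw [abs_mul, abs_mul, abs_div, abs_mul, abs_mul, abs_pow, abs_pow, abs_pow, abs_neg, abs_one,
    one_pow, one_mul, abs_of_nonneg a2', abs_of_nonneg a3',
    abs_of_pos (show 0 < k ^ 5 * Real.sinh (k * Real.pi) by positivity)]
  have b1 : |Real.sin (k * δ)| ^ 3 ≤ (k * δ) ^ 3 := pow_le_pow_left₀ (abs_nonneg _) a1 3
  have b2 : Real.sinh (k * δ) ^ 3 ≤ (k * δ * Real.exp (k * δ)) ^ 3 := pow_le_pow_left₀ a2' a2 3
  have b3 : |Real.sin (k * δ)| ^ 3 * Real.sinh (k * δ) ^ 3 ≤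
      (k * δ) ^ 3 * (k * δ * Real.exp (k * δ)) ^ 3 := mul_le_mul b1 b2 (by positivity) (by positivity)
  have b4 : |Real.sin (k * δ)| ^ 3 * Real.sinh (k * δ) ^ 3 / (k ^ 5 * Real.sinh (k * Real.pi)) ≤
      (k * δ) ^ 3 * (k * δ * Real.exp (k * δ)) ^ 3 / (k ^ 5 * (49 / 100 * Real.exp (k * Real.pi))) :=
    div_le_div₀ (by positivity) b3 (by positivity)
      (mul_le_mul_of_nonneg_left a4 (by positivity))
  have b5 : |Real.sin (k * (Real.pi / 2))| ≤ 1 := Real.abs_sin_le_one _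
  have b6 : |Real.sin (k * δ)| ^ 3 * Real.sinh (k * δ) ^ 3 / (k ^ 5 * Real.sinh (k * Real.pi)) *
      |Real.sin (k * (Real.pi / 2))| * Real.sinh (k * y) ≤
      (k * δ) ^ 3 * (k * δ * Real.exp (k * δ)) ^ 3 / (k ^ 5 * (49 / 100 * Real.exp (k * Real.pi))) *
        1 * (k * Real.exp (m * (Real.pi / 2)) * Real.sinh y) := by
    apply mul_le_mul (mul_le_mul b4 b5 (abs_nonneg _) (by positivity)) _ a3' (by positivity)
    refine a3.trans ?_
    exact mul_le_mul_of_nonneg_right (mul_le_mul_of_nonneg_left a5 hk0.le) hs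
  refine b6.trans (le_of_eq ?_)
  have c1 : Real.exp (k * δ) ^ 3 = Real.exp (3 * δ) ^ (m + 1) := by
    rw [← Real.exp_nat_mul, ← Real.exp_nat_mul]
    congr 1
    rw [hk]
    push_cast
    ring
  have c2 : Real.exp (m * (Real.pi / 2)) =
      Real.exp (k * Real.pi) * Real.exp (-(Real.pi / 2)) ^ (m + 2) := by
    rw [← Real.exp_nat_mul, ← Real.exp_add]
    congr 1
    rw [hk]
    push_cast
    ring
  rw [mul_pow (k * δ) (Real.exp (k * δ)) 3, c1, c2]
  field_simp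

theorem T6_sq (j : ℕ) : (((j : ℝ) + 3) ^ 2) ≤ 9 * 2 ^ j := by
  induction j with
  | zero => norm_num
  | succ j ih =>
    have hj : (0 : ℝ) ≤ j := Nat.cast_nonneg j
    have e : (2 : ℝ) ^ (j + 1) = 2 ^ j * 2 := pow_succ 2 j
    have h1 : (0 : ℝ) ≤ (j : ℝ) ^ 2 := sq_nonneg _
    rw [e]
    push_cast
    linarith

/-- On the side `x = π / 2` the function `hh` is at least a positive multiple of `sinh y`. -/
theorem hh_side (δ : ℝ) (hδ : 0 < δ) (hδ' : δ ≤ 1 / 1000) :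
    ∃ ε : ℝ, 0 < ε ∧ ∀ y : ℝ, 0 ≤ y → y ≤ Real.pi / 2 →
      ε * Real.sinh y ≤ hh δ (Real.pi / 2) y := by
  obtain ⟨H, hH⟩ : ∃ H : ℝ, H = Real.exp (-(Real.pi / 2)) := ⟨_, rfl⟩
  obtain ⟨G, hG⟩ : ∃ G : ℝ, G = Real.exp (3 * δ) := ⟨_, rfl⟩
  obtain ⟨P, hP⟩ : ∃ P : ℝ, P = Real.exp (-Real.pi) := ⟨_, rfl⟩
  have hH0 : 0 < H := by rw [hH]; exact Real.exp_pos _
  have hG0 : 0 < G := by rw [hG]; exact Real.exp_pos _
  have hP0 : 0 < P := by rw [hP]; exact Real.exp_pos _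
  have hHP : H ^ 2 = P := by
    rw [hH, hP, ← Real.exp_nat_mul]
    congr 1
    push_cast
    ring
  have hP1 : P ≤ 1 / 20 := by
    rw [hP, Real.exp_neg, inv_eq_one_div]
    exact one_div_le_one_div_of_le (by norm_num) T6_exp_pi
  have hH1 : H ≤ 2237 / 10000 := by
    by_contra hcon
    push Not at hcon
    have : (2237 / 10000 : ℝ) ^ 2 ≤ H ^ 2 := pow_le_pow_left₀ (by norm_num) hcon.le 2
    rw [hHP] at this
    norm_num at this
    linarith
  have hG1 : G ≤ 1004 / 1000 := by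
    have h1 : 1 - 3 * δ ≤ Real.exp (-(3 * δ)) := Real.one_sub_le_exp_neg _
    rw [Real.exp_neg, ← hG] at h1
    have h2 : (997 / 1000 : ℝ) ≤ G⁻¹ := by linarith
    have h3 : G * (997 / 1000) ≤ G * G⁻¹ := mul_le_mul_of_nonneg_left h2 hG0.le
    rw [mul_inv_cancel₀ hG0.ne'] at h3
    linarith
  have hr0 : 0 ≤ 2 * G * H := by positivity
  have hr1 : 2 * G * H ≤ 45 / 100 := by
    have : G * H ≤ 1004 / 1000 * (2237 / 10000) := mul_le_mul hG1 hH1 hH0.le (by norm_num)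
    linarith
  refine ⟨δ ^ 6 * P * (1 / 10), by positivity, fun y hy0 hy => ?_⟩
  have hs : 0 ≤ Real.sinh y := Real.sinh_nonneg_iff.2 hy0
  obtain ⟨T, hT⟩ : ∃ T : ℕ → ℝ, T = fun m : ℕ => cc δ m * Real.sin (((m : ℝ) + 1) * (Real.pi / 2)) *
      Real.sinh (((m : ℝ) + 1) * y) := ⟨_, rfl⟩
  obtain ⟨D, hD⟩ : ∃ D : ℝ, D = δ ^ 6 * Real.sinh y * (100 / 49) * 9 * G ^ 3 * H ^ 4 := ⟨_, rfl⟩
  have hD0 : 0 ≤ D := by rw [hD]; positivity
  have hb : ∀ j : ℕ, ‖T (j + 2)‖ ≤ D * (2 * G * H) ^ j := by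
    intro j
    have h1 := T6_term δ y hδ hy0 hy (j + 2)
    rw [← hG, ← hH] at h1
    rw [hT, Real.norm_eq_abs]
    refine h1.trans ?_
    have h2 : (((j + 2 : ℕ) : ℝ) + 1) ^ 2 ≤ 9 * 2 ^ j := by
      have := T6_sq j
      have e : (((j + 2 : ℕ) : ℝ) + 1) = (j : ℝ) + 3 := by
        push_cast
        ring
      rw [e]
      exact this
    have h3 : (((j + 2 : ℕ) : ℝ) + 1) ^ 2 * G ^ (j + 2 + 1) * H ^ (j + 2 + 2) ≤
        9 * 2 ^ j * G ^ (j + 2 + 1) * H ^ (j + 2 + 2) :=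
      mul_le_mul_of_nonneg_right (mul_le_mul_of_nonneg_right h2 (by positivity)) (by positivity)
    refine (mul_le_mul_of_nonneg_left h3 (by positivity)).trans (le_of_eq ?_)
    rw [hD, mul_pow, mul_pow]
    ring
  have hgs : HasSum (fun j : ℕ => D * (2 * G * H) ^ j) (D * (1 - 2 * G * H)⁻¹) :=
    (hasSum_geometric_of_lt_one hr0 (by linarith)).mul_left D
  have hsum : Summable T := by
    rw [← summable_nat_add_iff 2]
    exact Summable.of_norm_bounded hgs.summable hb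
  have htail : ‖∑' j : ℕ, T (j + 2)‖ ≤ D * (1 - 2 * G * H)⁻¹ := tsum_of_norm_bounded hgs hb
  have hsplit := hsum.sum_add_tsum_nat_add 2
  have hT1 : T 1 = 0 := by
    rw [hT]
    have e : (((1 : ℕ) : ℝ) + 1) * (Real.pi / 2) = Real.pi := by
      push_cast
      ring
    show cc δ 1 * Real.sin ((((1 : ℕ) : ℝ) + 1) * (Real.pi / 2)) * _ = 0
    rw [e, Real.sin_pi]
    ring
  have hT0 : δ ^ 6 * P * (198 / 100) * Real.sinh y ≤ T 0 := by
    rw [hT]
    show _ ≤ cc δ 0 * Real.sin ((((0 : ℕ) : ℝ) + 1) * (Real.pi / 2)) *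
      Real.sinh ((((0 : ℕ) : ℝ) + 1) * y)
    have e1 : (((0 : ℕ) : ℝ) + 1) = 1 := by norm_num
    unfold cc
    rw [e1]
    simp only [one_mul, one_pow, pow_zero]
    rw [Real.sin_pi_div_two, mul_one]
    apply mul_le_mul_of_nonneg_right _ hs
    have f1 : 999 / 1000 * δ ≤ Real.sin δ := by
      have := Real.sin_gt_sub_cube hδ
      have h2 : δ ^ 3 / 6 ≤ 1 / 1000 * δ := by
        have h3 : δ ^ 2 ≤ 1 := by nlinarith
        have h4 : δ ^ 3 = δ * δ ^ 2 := by ring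
        rw [h4]
        nlinarith
      linarith
    have f2 : δ ≤ Real.sinh δ := Real.self_le_sinh_iff.2 hδ.le
    have f3 : Real.sinh Real.pi ≤ Real.exp Real.pi / 2 := by
      rw [Real.sinh_eq]
      have := Real.exp_pos (-Real.pi)
      linarith
    have f4 : 0 < Real.sinh Real.pi := Real.sinh_pos_iff.2 Real.pi_pos
    rw [le_div_iff₀ f4]
    have f5 : (999 / 1000 * δ) ^ 3 ≤ Real.sin δ ^ 3 := pow_le_pow_left₀ (by positivity) f1 3
    have f6 : δ ^ 3 ≤ Real.sinh δ ^ 3 := pow_le_pow_left₀ hδ.le f2 3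
    have f7 : (999 / 1000 * δ) ^ 3 * δ ^ 3 ≤ Real.sin δ ^ 3 * Real.sinh δ ^ 3 :=
      mul_le_mul f5 f6 (by positivity) ((by positivity : (0 : ℝ) ≤ (999 / 1000 * δ) ^ 3).trans f5)
    have f8 : P * Real.exp Real.pi = 1 := by
      rw [hP, ← Real.exp_add]
      simp
    have f9 : δ ^ 6 * P * (198 / 100) * Real.sinh Real.pi ≤
        δ ^ 6 * P * (198 / 100) * (Real.exp Real.pi / 2) :=
      mul_le_mul_of_nonneg_left f3 (by positivity)
    have f10 : δ ^ 6 * P * (198 / 100) * (Real.exp Real.pi / 2) = δ ^ 6 * (99 / 100) := by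
      have : δ ^ 6 * P * (198 / 100) * (Real.exp Real.pi / 2) =
          δ ^ 6 * (99 / 100) * (P * Real.exp Real.pi) := by ring
      rw [this, f8, mul_one]
    have f11 : δ ^ 6 * (99 / 100) ≤ (999 / 1000 * δ) ^ 3 * δ ^ 3 := by
      have h1 : (999 / 1000 * δ) ^ 3 * δ ^ 3 = δ ^ 6 * (999 / 1000) ^ 3 := by ring
      rw [h1]
      exact mul_le_mul_of_nonneg_left (by norm_num) (by positivity)
    linarith
  have htail' : D * (1 - 2 * G * H)⁻¹ ≤ δ ^ 6 * P * (188 / 100) * Real.sinh y := by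
    have g1 : (1 - 2 * G * H)⁻¹ ≤ (55 / 100)⁻¹ := inv_anti₀ (by norm_num) (by linarith)
    have g2 : D ≤ δ ^ 6 * P * Real.sinh y * (100 / 49 * 9 * (1004 / 1000) ^ 3 * (1 / 20)) := by
      have g3 : G ^ 3 ≤ (1004 / 1000) ^ 3 := pow_le_pow_left₀ hG0.le hG1 3
      have g4 : H ^ 4 = P * P := by
        rw [← hHP]
        ring
      have g5 : G ^ 3 * P ≤ (1004 / 1000) ^ 3 * (1 / 20) := mul_le_mul g3 hP1 hP0.le (by norm_num)
      have g6 : D = δ ^ 6 * P * Real.sinh y * (100 / 49 * 9) * (G ^ 3 * P) := by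
        rw [hD, g4]
        ring
      rw [g6]
      refine (mul_le_mul_of_nonneg_left g5 (by positivity)).trans (le_of_eq ?_)
      ring
    have g7 : D * (1 - 2 * G * H)⁻¹ ≤
        δ ^ 6 * P * Real.sinh y * (100 / 49 * 9 * (1004 / 1000) ^ 3 * (1 / 20)) * (55 / 100)⁻¹ :=
      mul_le_mul g2 g1 (inv_nonneg.2 (by linarith)) (by positivity)
    refine g7.trans ?_
    have g8 : δ ^ 6 * P * Real.sinh y * (100 / 49 * 9 * (1004 / 1000) ^ 3 * (1 / 20)) *
        (55 / 100)⁻¹ = δ ^ 6 * P * Real.sinh y *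
        ((100 / 49 * 9 * (1004 / 1000) ^ 3 * (1 / 20)) * (55 / 100)⁻¹) := by ring
    have g9 : δ ^ 6 * P * (188 / 100) * Real.sinh y = δ ^ 6 * P * Real.sinh y * (188 / 100) := by
      ring
    rw [g8, g9]
    exact mul_le_mul_of_nonneg_left (by norm_num) (by positivity)
  have hfin : hh δ (Real.pi / 2) y = T 0 + ∑' j : ℕ, T (j + 2) := by
    have h1 : hh δ (Real.pi / 2) y = ∑' m : ℕ, T m := by
      rw [hT]
      rfl
    rw [h1, ← hsplit, Finset.sum_range_succ, Finset.sum_range_one, hT1, add_zero]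
  rw [hfin]
  have h1 := (abs_le.1 (htail.trans htail')).1
  linarith

end Pool.Agent.H262.QS
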